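import Mathlib

/-!
The one dimensional inequality: a function `u` with `u (0) = 1` and `u ^ 2 + 4 u' ^ 2 ≤ 1` has a
positive integral against `f`.
-/

namespace SpecVar

open Real Set Filter Topology MeasureTheory intervalIntegral

/-! ### Taylor bounds -/

/-- Partial sums of the sine series. -/
noncomputable def Sn (n : ℕ) (t : ℝ) : ℝ :=
  ∑ k ∈ Finset.range n, (-1 : ℝ) ^ k * t ^ (2 * k + 1) / (Nat.factorial (2 * k + 1) : ℝ)

/-- Partial sums of the cosine series. -/
noncomputable def Cn (n : ℕ) (t : ℝ) : ℝ :=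
  ∑ k ∈ Finset.range n, (-1 : ℝ) ^ k * t ^ (2 * k) / (Nat.factorial (2 * k) : ℝ)

theorem hasDerivAt_Sn (n : ℕ) (t : ℝ) : HasDerivAt (Sn n) (Cn n t) t := by
  unfold Sn Cn
  refine HasDerivAt.fun_sum fun k _ => ?_
  have h1 : HasDerivAt (fun t : ℝ => t ^ (2 * k + 1)) ((2 * k + 1 : ℕ) * t ^ (2 * k)) t := by
    simpa using hasDerivAt_pow (2 * k + 1) t
  have h2 := (h1.const_mul ((-1 : ℝ) ^ k)).div_const (Nat.factorial (2 * k + 1) : ℝ)
  refine h2.congr_deriv ?_
  rw [Nat.factorial_succ]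
  have : (Nat.factorial (2 * k) : ℝ) ≠ 0 := by positivity
  push_cast
  have h3 : (2 * (k : ℝ) + 1) ≠ 0 := by positivity
  field_simp

theorem hasDerivAt_Cn (n : ℕ) (t : ℝ) : HasDerivAt (Cn (n + 1)) (-Sn n t) t := by
  unfold Sn Cn
  have h0 : (fun t : ℝ => ∑ k ∈ Finset.range (n + 1), (-1 : ℝ) ^ k * t ^ (2 * k) /
      (Nat.factorial (2 * k) : ℝ)) = fun t : ℝ => (∑ k ∈ Finset.range n,
      (-1 : ℝ) ^ (k + 1) * t ^ (2 * (k + 1)) / (Nat.factorial (2 * (k + 1)) : ℝ)) + 1 := by
    funext t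
    rw [Finset.sum_range_succ']
    simp
  rw [h0, ← Finset.sum_neg_distrib]
  refine HasDerivAt.add_const _ ?_
  refine HasDerivAt.fun_sum fun k _ => ?_
  have h1 : HasDerivAt (fun t : ℝ => t ^ (2 * (k + 1))) ((2 * k + 2 : ℕ) * t ^ (2 * k + 1)) t := by
    have := hasDerivAt_pow (2 * (k + 1)) t
    refine this.congr_deriv ?_
    rfl
  have h2 := (h1.const_mul ((-1 : ℝ) ^ (k + 1))).div_const (Nat.factorial (2 * (k + 1)) : ℝ)
  refine h2.congr_deriv ?_
  have h4 : Nat.factorial (2 * (k + 1)) = (2 * k + 2) * Nat.factorial (2 * k + 1) := by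
    rw [show 2 * (k + 1) = (2 * k + 1) + 1 by ring, Nat.factorial_succ]
  rw [h4]
  have : (Nat.factorial (2 * k + 1) : ℝ) ≠ 0 := by positivity
  push_cast
  have h3 : (2 * (k : ℝ) + 2) ≠ 0 := by positivity
  rw [pow_succ]
  field_simp

theorem Sn_zero (n : ℕ) : Sn n 0 = 0 := by
  unfold Sn
  apply Finset.sum_eq_zero
  intro k _
  simp

theorem Cn_zero (n : ℕ) : Cn (n + 1) 0 = 1 := by
  unfold Cn
  rw [Finset.sum_range_succ']
  simp

/-- A function with nonnegative derivative that vanishes at `0` is nonnegative. -/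
theorem nonneg_of_deriv {h h' : ℝ → ℝ} (hd : ∀ t, HasDerivAt h (h' t) t)
    (h0 : h 0 = 0) (hn : ∀ t, 0 ≤ t → 0 ≤ h' t) : ∀ t, 0 ≤ t → 0 ≤ h t := by
  intro t ht
  have hm : MonotoneOn h (Ici 0) := by
    apply monotoneOn_of_deriv_nonneg (convex_Ici 0)
    · exact fun x _ => (hd x).continuousAt.continuousWithinAt
    · exact fun x _ => (hd x).differentiableAt.differentiableWithinAt
    · intro x hx
      rw [interior_Ici] at hx
      rw [(hd x).deriv]
      exact hn x (le_of_lt hx)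
  have := hm (mem_Ici.2 le_rfl) (mem_Ici.2 ht) ht
  rwa [h0] at this

theorem taylor_bounds (n : ℕ) : (∀ t : ℝ, 0 ≤ t → 0 ≤ (-1 : ℝ) ^ (n + 1) * (cos t - Cn (n + 1) t)) ∧
    (∀ t : ℝ, 0 ≤ t → 0 ≤ (-1 : ℝ) ^ (n + 1) * (sin t - Sn (n + 1) t)) := by
  induction n with
  | zero =>
    constructor
    · intro t _
      simp [Cn]
      linarith [cos_le_one t]
    · intro t ht
      simp [Sn]
      linarith [sin_le ht]
  | succ n ih =>
    have h1 : ∀ t : ℝ, 0 ≤ t → 0 ≤ (-1 : ℝ) ^ (n + 1 + 1) * (cos t - Cn (n + 1 + 1) t) := by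
      refine nonneg_of_deriv (h' := fun t => (-1 : ℝ) ^ (n + 1 + 1) * (-sin t - (-Sn (n + 1) t)))
        (fun t => ?_) ?_ ?_
      · exact ((hasDerivAt_cos t).sub (hasDerivAt_Cn (n + 1) t)).const_mul _
      · rw [Cn_zero]
        simp
      · intro t ht
        have := ih.2 t ht
        have h2 : (-1 : ℝ) ^ (n + 1 + 1) * (-sin t - (-Sn (n + 1) t)) =
            (-1 : ℝ) ^ (n + 1) * (sin t - Sn (n + 1) t) := by
          rw [pow_succ (-1 : ℝ) (n + 1)]
          ring
        rw [h2]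
        exact this
    refine ⟨h1, ?_⟩
    refine nonneg_of_deriv (h' := fun t => (-1 : ℝ) ^ (n + 1 + 1) * (cos t - Cn (n + 1 + 1) t))
      (fun t => ?_) ?_ h1
    · exact ((hasDerivAt_sin t).sub (hasDerivAt_Sn (n + 1 + 1) t)).const_mul _
    · rw [Sn_zero]
      simp

theorem sin_le_S5 {t : ℝ} (ht : 0 ≤ t) :
    sin t ≤ t - t ^ 3 / 6 + t ^ 5 / 120 - t ^ 7 / 5040 + t ^ 9 / 362880 := by
  have h := (taylor_bounds 4).2 t ht
  simp only [Sn, Finset.sum_range_succ, Finset.sum_range_zero, Nat.factorial] at h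
  norm_num at h
  linarith

theorem sin_le_S7 {t : ℝ} (ht : 0 ≤ t) :
    sin t ≤ t - t ^ 3 / 6 + t ^ 5 / 120 - t ^ 7 / 5040 + t ^ 9 / 362880 - t ^ 11 / 39916800
      + t ^ 13 / 6227020800 := by
  have h := (taylor_bounds 6).2 t ht
  simp only [Sn, Finset.sum_range_succ, Finset.sum_range_zero, Nat.factorial] at h
  norm_num at h
  linarith

theorem sin_ge_S2 {t : ℝ} (ht : 0 ≤ t) : t - t ^ 3 / 6 ≤ sin t := by
  have h := (taylor_bounds 1).2 t ht
  simp only [Sn, Finset.sum_range_succ, Finset.sum_range_zero, Nat.factorial] at h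
  norm_num at h
  linarith

/-! ### The functions `g` and `f` -/

/-- The numerator of `g`. -/
noncomputable def gn (y : ℝ) : ℝ := sin y - y * cos y

/-- The numerator of `f`. -/
noncomputable def fn (y : ℝ) : ℝ := 3 * sin y - 3 * y * cos y - y ^ 2 * sin y

/-- `j₁ (y) / y`. -/
noncomputable def g (y : ℝ) : ℝ := gn y / y ^ 3

/-- `j₂ (y) / y`. -/
noncomputable def f (y : ℝ) : ℝ := fn y / y ^ 4

theorem hasDerivAt_gn (y : ℝ) : HasDerivAt gn (y * sin y) y := by
  unfold gn
  have h := (hasDerivAt_sin y).sub ((hasDerivAt_id y).mul (hasDerivAt_cos y))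
  refine h.congr_deriv ?_
  simp only [id]
  ring

theorem hasDerivAt_fn (y : ℝ) : HasDerivAt fn (y * gn y) y := by
  unfold fn gn
  have h := (((hasDerivAt_sin y).const_mul 3).sub
    (((hasDerivAt_id y).const_mul 3).mul (hasDerivAt_cos y))).sub
    ((hasDerivAt_pow 2 y).mul (hasDerivAt_sin y))
  refine h.congr_deriv ?_
  simp only [id]
  push_cast
  ring

theorem hasDerivAt_g {y : ℝ} (hy : y ≠ 0) : HasDerivAt g (-f y) y := by
  unfold g f
  have h := (hasDerivAt_gn y).div (hasDerivAt_pow 3 y) (pow_ne_zero 3 hy)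
  refine h.congr_deriv ?_
  unfold fn gn
  push_cast
  field_simp
  ring

theorem gn_le {y : ℝ} (hy : 0 ≤ y) : gn y ≤ y ^ 3 / 3 := by
  have h := nonneg_of_deriv (h := fun y => y ^ 3 / 3 - gn y) (h' := fun y => y ^ 2 - y * sin y)
    (fun t => by
      have h := ((hasDerivAt_pow 3 t).div_const 3).sub (hasDerivAt_gn t)
      refine h.congr_deriv ?_
      push_cast
      ring) (by simp [gn]) (fun t ht => by nlinarith [sin_le ht]) y hy
  linarith

theorem gn_ge {y : ℝ} (hy : 0 ≤ y) : y ^ 3 / 3 - y ^ 5 / 30 ≤ gn y := by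
  have h := nonneg_of_deriv (h := fun y => gn y - (y ^ 3 / 3 - y ^ 5 / 30))
    (h' := fun y => y * sin y - (y ^ 2 - y ^ 4 / 6))
    (fun t => by
      have h := (hasDerivAt_gn t).sub (((hasDerivAt_pow 3 t).div_const 3).sub
        ((hasDerivAt_pow 5 t).div_const 30))
      refine h.congr_deriv ?_
      push_cast
      ring) (by simp [gn]) (fun t ht => by nlinarith [sin_ge_S2 ht]) y hy
  linarith

theorem gn_le_S {y : ℝ} (hy : 0 ≤ y) : gn y ≤ y ^ 3 / 3 - y ^ 5 / 30 + y ^ 7 / 840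
    - y ^ 9 / 45360 + y ^ 11 / 3991680 - y ^ 13 / 518918400 + y ^ 15 / 93405312000 := by
  have h := nonneg_of_deriv (h := fun y => (y ^ 3 / 3 - y ^ 5 / 30 + y ^ 7 / 840
    - y ^ 9 / 45360 + y ^ 11 / 3991680 - y ^ 13 / 518918400 + y ^ 15 / 93405312000) - gn y)
    (h' := fun y => y * ((y - y ^ 3 / 6 + y ^ 5 / 120 - y ^ 7 / 5040 + y ^ 9 / 362880
      - y ^ 11 / 39916800 + y ^ 13 / 6227020800) - sin y))
    (fun t => by
      have h := ((((((((hasDerivAt_pow 3 t).div_const 3).sub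
        ((hasDerivAt_pow 5 t).div_const 30)).add ((hasDerivAt_pow 7 t).div_const 840)).sub
        ((hasDerivAt_pow 9 t).div_const 45360)).add ((hasDerivAt_pow 11 t).div_const 3991680)).sub
        ((hasDerivAt_pow 13 t).div_const 518918400)).add
        ((hasDerivAt_pow 15 t).div_const 93405312000)).sub (hasDerivAt_gn t)
      refine h.congr_deriv ?_
      push_cast
      ring) (by simp [gn]) (fun t ht => mul_nonneg ht (by linarith [sin_le_S7 ht])) y hy
  linarith

theorem fn_le {y : ℝ} (hy : 0 ≤ y) : fn y ≤ y ^ 5 / 15 := by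
  have h := nonneg_of_deriv (h := fun y => y ^ 5 / 15 - fn y) (h' := fun y => y * (y ^ 3 / 3 - gn y))
    (fun t => by
      have h := ((hasDerivAt_pow 5 t).div_const 15).sub (hasDerivAt_fn t)
      refine h.congr_deriv ?_
      push_cast
      ring) (by simp [fn]) (fun t ht => mul_nonneg ht (by linarith [gn_le ht])) y hy
  linarith

theorem fn_ge {y : ℝ} (hy : 0 ≤ y) : -(y ^ 5 / 15) ≤ fn y := by
  -- `|sin t| ≤ t` gives `|gn| ≤ y^3/3`
  have hg : ∀ t : ℝ, 0 ≤ t → 0 ≤ gn t + t ^ 3 / 3 := by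
    refine nonneg_of_deriv (h' := fun y => y * sin y + y ^ 2)
      (fun t => by
        have h := (hasDerivAt_gn t).add ((hasDerivAt_pow 3 t).div_const 3)
        refine h.congr_deriv ?_
        push_cast
        ring) (by simp [gn]) (fun t ht => ?_)
    have h1 : -t ≤ sin t := by
      have h := (abs_le.1 (abs_sin_le_abs (x := t))).1
      rwa [abs_of_nonneg ht] at h
    nlinarith
  have h := nonneg_of_deriv (h := fun y => fn y + y ^ 5 / 15) (h' := fun y => y * (gn y + y ^ 3 / 3))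
    (fun t => by
      have h := (hasDerivAt_fn t).add ((hasDerivAt_pow 5 t).div_const 15)
      refine h.congr_deriv ?_
      push_cast
      ring) (by simp [fn]) (fun t ht => mul_nonneg ht (hg t ht)) y hy
  linarith

theorem gn_ge_neg {y : ℝ} (hy : 0 ≤ y) : -(y ^ 3 / 3) ≤ gn y := by
  have h := nonneg_of_deriv (h := fun y => gn y + y ^ 3 / 3) (h' := fun y => y * sin y + y ^ 2)
    (fun t => by
      have h := (hasDerivAt_gn t).add ((hasDerivAt_pow 3 t).div_const 3)
      refine h.congr_deriv ?_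
      push_cast
      ring) (by simp [gn]) (fun t ht => by
        have h := (abs_le.1 (abs_sin_le_abs (x := t))).1
        rw [abs_of_nonneg ht] at h
        nlinarith) y hy
  linarith

theorem sin_ge_S8 {t : ℝ} (ht : 0 ≤ t) :
    t - t ^ 3 / 6 + t ^ 5 / 120 - t ^ 7 / 5040 + t ^ 9 / 362880 - t ^ 11 / 39916800
      + t ^ 13 / 6227020800 - t ^ 15 / 1307674368000 ≤ sin t := by
  have h := (taylor_bounds 7).2 t ht
  simp only [Sn, Finset.sum_range_succ, Finset.sum_range_zero, Nat.factorial] at h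
  norm_num at h
  linarith

theorem sin_ge_S6 {t : ℝ} (ht : 0 ≤ t) :
    t - t ^ 3 / 6 + t ^ 5 / 120 - t ^ 7 / 5040 + t ^ 9 / 362880 - t ^ 11 / 39916800 ≤ sin t := by
  have h := (taylor_bounds 5).2 t ht
  simp only [Sn, Finset.sum_range_succ, Finset.sum_range_zero, Nat.factorial] at h
  norm_num at h
  linarith

theorem gn_ge_S {y : ℝ} (hy : 0 ≤ y) : y ^ 3 / 3 - y ^ 5 / 30 + y ^ 7 / 840
    - y ^ 9 / 45360 + y ^ 11 / 3991680 - y ^ 13 / 518918400 + y ^ 15 / 93405312000
    - y ^ 17 / 22230464256000 ≤ gn y := by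
  have h := nonneg_of_deriv (h := fun y => gn y - (y ^ 3 / 3 - y ^ 5 / 30 + y ^ 7 / 840
    - y ^ 9 / 45360 + y ^ 11 / 3991680 - y ^ 13 / 518918400 + y ^ 15 / 93405312000
    - y ^ 17 / 22230464256000))
    (h' := fun y => y * (sin y - (y - y ^ 3 / 6 + y ^ 5 / 120 - y ^ 7 / 5040 + y ^ 9 / 362880
      - y ^ 11 / 39916800 + y ^ 13 / 6227020800 - y ^ 15 / 1307674368000)))
    (fun t => by
      have h := (hasDerivAt_gn t).sub ((((((((hasDerivAt_pow 3 t).div_const 3).sub
        ((hasDerivAt_pow 5 t).div_const 30)).add ((hasDerivAt_pow 7 t).div_const 840)).sub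
        ((hasDerivAt_pow 9 t).div_const 45360)).add ((hasDerivAt_pow 11 t).div_const 3991680)).sub
        ((hasDerivAt_pow 13 t).div_const 518918400)).add
        ((hasDerivAt_pow 15 t).div_const 93405312000)|>.sub
        ((hasDerivAt_pow 17 t).div_const 22230464256000))
      refine h.congr_deriv ?_
      push_cast
      ring) (by simp [gn]) (fun t ht => mul_nonneg ht (by linarith [sin_ge_S8 ht])) y hy
  linarith

theorem abs_g_le : |g (9 / 2)| ≤ 1 / 3000 := by
  have h1 := gn_le_S (y := 9 / 2) (by norm_num)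
  have h2 := gn_ge_S (y := 9 / 2) (by norm_num)
  unfold g
  rw [abs_div, abs_of_pos (by norm_num : (0 : ℝ) < (9 / 2) ^ 3), div_le_iff₀ (by norm_num), abs_le]
  norm_num at h1 h2 ⊢
  constructor <;> linarith

/-! ### Bounds for `f` -/

theorem abs_f_le {y : ℝ} (hy : 0 < y) : |f y| ≤ y / 15 := by
  unfold f
  rw [abs_div, abs_of_pos (by positivity : (0 : ℝ) < y ^ 4), div_le_iff₀ (by positivity), abs_le]
  have h1 := fn_le hy.le
  have h2 := fn_ge hy.le
  constructor <;> nlinarith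

theorem abs_f_le' {y : ℝ} (hy : 0 < y) : |f y| ≤ (3 + 3 * y + y ^ 2) / y ^ 4 := by
  unfold f fn
  rw [abs_div, abs_of_pos (by positivity : (0 : ℝ) < y ^ 4)]
  gcongr
  have h1 := abs_le.1 (abs_sin_le_one y)
  have h2 := abs_le.1 (abs_cos_le_one y)
  rw [abs_le]
  constructor <;> nlinarith [sq_nonneg y]

theorem abs_f_le_sq {y : ℝ} (hy : 1 ≤ y) : |f y| ≤ 7 / y ^ 2 := by
  refine (abs_f_le' (by linarith)).trans ?_
  rw [div_le_div_iff₀ (by positivity) (by positivity)]
  nlinarith [mul_nonneg (sq_nonneg y) (sub_nonneg.2 hy), mul_nonneg (sq_nonneg y) (sq_nonneg (y - 1))]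

theorem measurable_f : Measurable f := by
  unfold f fn
  fun_prop

theorem f_nonneg {y : ℝ} (hy : 0 < y) (hy2 : y ≤ 9 / 2) : 0 ≤ f y := by
  unfold f
  apply div_nonneg _ (by positivity)
  rcases le_total y π with h | h
  · -- `gn ≥ 0` on `[0, π]`
    have hgn : ∀ t ∈ Icc (0 : ℝ) π, 0 ≤ gn t := by
      have hm : MonotoneOn gn (Icc 0 π) := by
        apply monotoneOn_of_deriv_nonneg (convex_Icc 0 π)
        · exact fun x _ => (hasDerivAt_gn x).continuousAt.continuousWithinAt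
        · exact fun x _ => (hasDerivAt_gn x).differentiableAt.differentiableWithinAt
        · intro x hx
          rw [interior_Icc] at hx
          rw [(hasDerivAt_gn x).deriv]
          exact mul_nonneg hx.1.le (sin_nonneg_of_nonneg_of_le_pi hx.1.le hx.2.le)
      intro t ht
      have := hm (left_mem_Icc.2 pi_pos.le) ht ht.1
      simpa [gn] using this
    have hm : MonotoneOn fn (Icc 0 π) := by
      apply monotoneOn_of_deriv_nonneg (convex_Icc 0 π)
      · exact fun x _ => (hasDerivAt_fn x).continuousAt.continuousWithinAt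
      · exact fun x _ => (hasDerivAt_fn x).differentiableAt.differentiableWithinAt
      · intro x hx
        rw [interior_Icc] at hx
        rw [(hasDerivAt_fn x).deriv]
        exact mul_nonneg hx.1.le (hgn x ⟨hx.1.le, hx.2.le⟩)
    have := hm (left_mem_Icc.2 pi_pos.le) ⟨hy.le, h⟩ hy.le
    simpa [fn] using this
  · -- `sin ≤ 0`, `cos ≤ 0` on `[π, 3π/2]`
    have hpi := pi_gt_three
    have hpi2 : 3.1415 < π := pi_gt_d4
    have hs : sin y ≤ 0 := by
      have : 0 ≤ sin (y - π) := sin_nonneg_of_nonneg_of_le_pi (by linarith) (by linarith)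
      rw [sin_sub_pi] at this
      linarith
    have hc : cos y ≤ 0 := by
      have : 0 ≤ cos (y - π) := cos_nonneg_of_mem_Icc ⟨by linarith, by linarith⟩
      rw [cos_sub_pi] at this
      linarith
    unfold fn
    have h3 : 0 ≤ (y ^ 2 - 3) * (-sin y) := mul_nonneg (by nlinarith) (by linarith)
    have h4 : 0 ≤ y * (-cos y) := mul_nonneg hy.le (by linarith)
    nlinarith

/-! ### Comparison with the cosine -/

theorem cos_le_u {u u' : ℝ → ℝ} (hu : ∀ y, HasDerivAt u (u' y) y)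
    (hb : ∀ y, u y ^ 2 + 4 * u' y ^ 2 ≤ 1) (h0 : u 0 = 1) {t : ℝ} (ht : 0 ≤ t)
    (ht2 : t / 2 ≤ π) : cos (t / 2) ≤ u t := by
  have hub : ∀ y, -1 ≤ u y ∧ u y ≤ 1 := by
    intro y
    have : |u y| ≤ 1 := by
      rw [← sq_le_one_iff_abs_le_one]
      nlinarith [hb y, sq_nonneg (u' y)]
    exact abs_le.1 this
  -- the angle is Lipschitz
  have key : ∀ ε : ℝ, 0 < ε → ε < 1 → arccos ((1 - ε) * u t) ≤ arccos (1 - ε) + t / 2 := by
    intro ε hε hε1
    have hlt : ∀ y, -1 < (1 - ε) * u y ∧ (1 - ε) * u y < 1 := by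
      intro y
      have := hub y
      constructor <;> nlinarith
    have hd : ∀ y, HasDerivAt (fun y => arccos ((1 - ε) * u y))
        (-(1 / √(1 - ((1 - ε) * u y) ^ 2)) * ((1 - ε) * u' y)) y := by
      intro y
      have h1 : HasDerivAt arccos (-(1 / √(1 - ((1 - ε) * u y) ^ 2))) ((1 - ε) * u y) :=
        hasDerivAt_arccos (hlt y).1.ne' (hlt y).2.ne
      have h2 : HasDerivAt (fun y => (1 - ε) * u y) ((1 - ε) * u' y) y := (hu y).const_mul (1 - ε)
      exact HasDerivAt.comp (h₂ := arccos) (h := fun y => (1 - ε) * u y) y h1 h2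
    have h := nonneg_of_deriv
      (h := fun y => arccos (1 - ε) + y / 2 - arccos ((1 - ε) * u y))
      (h' := fun y => 1 / 2 - (-(1 / √(1 - ((1 - ε) * u y) ^ 2)) * ((1 - ε) * u' y)))
      (fun y => by
        have h1 : HasDerivAt (fun y : ℝ => arccos (1 - ε) + y / 2) (1 / 2) y :=
          ((hasDerivAt_id y).div_const 2).const_add _
        exact h1.sub (hd y)) (by simp [h0]) (fun y _ => ?_) t ht
    · linarith
    · have hpos : 0 < 1 - ((1 - ε) * u y) ^ 2 := by nlinarith [hlt y]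
      have hs : 0 < √(1 - ((1 - ε) * u y) ^ 2) := sqrt_pos.2 hpos
      have hle : |(1 - ε) * u' y| ≤ √(1 - ((1 - ε) * u y) ^ 2) / 2 := by
        rw [le_div_iff₀ (by norm_num : (0 : ℝ) < 2)]
        apply le_sqrt_of_sq_le
        rw [mul_pow, sq_abs]
        have h2 : (1 - ε) ^ 2 ≤ 1 := by nlinarith
        have h3 := mul_le_mul_of_nonneg_left (hb y) (sq_nonneg (1 - ε))
        nlinarith
      have h4 : |1 / √(1 - ((1 - ε) * u y) ^ 2) * ((1 - ε) * u' y)| ≤ 1 / 2 := by
        rw [abs_mul, abs_of_pos (by positivity : 0 < 1 / √(1 - ((1 - ε) * u y) ^ 2)),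
          div_mul_eq_mul_div, one_mul, div_le_iff₀ hs]
        linarith
      have h5 := abs_le.1 h4
      linarith [h5.1]
  -- pass to the limit
  have hlim : arccos (u t) ≤ t / 2 := by
    have h1 : Tendsto (fun ε : ℝ => arccos ((1 - ε) * u t)) (𝓝[>] 0)
        (𝓝 (arccos ((1 - 0) * u t))) := by
      apply Tendsto.mono_left _ nhdsWithin_le_nhds
      exact (Continuous.tendsto (by fun_prop) 0)
    have h2 : Tendsto (fun ε : ℝ => arccos (1 - ε) + t / 2) (𝓝[>] 0)
        (𝓝 (arccos (1 - 0) + t / 2)) := by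
      apply Tendsto.mono_left _ nhdsWithin_le_nhds
      exact (Continuous.tendsto (by fun_prop) 0)
    have h3 := le_of_tendsto_of_tendsto h1 h2 (by
      filter_upwards [Ioo_mem_nhdsGT (show (0 : ℝ) < 1 by norm_num)] with ε hε
      exact key ε hε.1 hε.2)
    simpa using h3
  have h4 : cos (t / 2) ≤ cos (arccos (u t)) :=
    cos_le_cos_of_nonneg_of_le_pi (arccos_nonneg _) ht2 hlim
  rwa [cos_arccos (hub t).1 (hub t).2] at h4

/-! ### The first part of the integral -/

theorem integrableOn_f : IntegrableOn f (Ioi 0) := by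
  have h1 : IntegrableOn f (Ioc 0 1) := by
    apply Measure.integrableOn_of_bounded (M := 1 / 15) (by simp) measurable_f.aestronglyMeasurable
    rw [ae_restrict_iff' measurableSet_Ioc]
    filter_upwards with y hy
    rw [norm_eq_abs]
    exact (abs_f_le hy.1).trans (by linarith [hy.2])
  have h2 : IntegrableOn f (Ioi 1) := by
    have h3 : IntegrableOn (fun y : ℝ => 7 * y ^ (-2 : ℝ)) (Ioi 1) :=
      (integrableOn_Ioi_rpow_of_lt (by norm_num) one_pos).const_mul 7
    refine Integrable.mono' h3 measurable_f.aestronglyMeasurable ?_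
    rw [ae_restrict_iff' measurableSet_Ioi]
    filter_upwards with y hy
    have hy1 : (1 : ℝ) < y := hy
    rw [norm_eq_abs]
    refine (abs_f_le_sq hy1.le).trans (le_of_eq ?_)
    rw [rpow_neg (by linarith), div_eq_mul_inv]
    norm_num
  have := h1.union h2
  rwa [Ioc_union_Ioi_eq_Ioi zero_le_one] at this

theorem tendsto_g_zero : Tendsto g (𝓝[>] 0) (𝓝 (1 / 3)) := by
  have h1 : Tendsto (fun y : ℝ => 1 / 3 - y ^ 2 / 30) (𝓝[>] 0) (𝓝 (1 / 3 - 0 ^ 2 / 30)) := by
    apply Tendsto.mono_left _ nhdsWithin_le_nhds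
    exact (Continuous.tendsto (by fun_prop) 0)
  rw [show (1 / 3 - 0 ^ 2 / 30 : ℝ) = 1 / 3 by norm_num] at h1
  refine tendsto_of_tendsto_of_tendsto_of_le_of_le' h1 tendsto_const_nhds ?_ ?_
  · filter_upwards [self_mem_nhdsWithin] with y hy
    have hy0 : (0 : ℝ) < y := hy
    unfold g
    rw [le_div_iff₀ (by positivity)]
    nlinarith [gn_ge hy0.le]
  · filter_upwards [self_mem_nhdsWithin] with y hy
    have hy0 : (0 : ℝ) < y := hy
    unfold g
    rw [div_le_iff₀ (by positivity)]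
    nlinarith [gn_le hy0.le]

/-- The coefficients of the bound for `g (y) sin (y/2)`. -/
noncomputable def rc (k : ℕ) : ℝ :=
  ([1/6, -17/720, 37/26880, -1307/29030400, 29063/30656102400, -311209/22317642547200,
    50657/334764638208000, -571/463520268288000, 1717/241030539509760000, -1/37081621463040000,
    1/17354198844702720000] : List ℝ).getD k 0

/-- The bound for `g (y) sin (y/2)`. -/
noncomputable def Rp (y : ℝ) : ℝ := ∑ k ∈ Finset.range 11, rc k * y ^ (2 * k + 1)

theorem integral_Rp : ∫ y in (0 : ℝ)..(9 / 2), Rp y ≤ 48151 / 100000 := by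
  unfold Rp
  rw [intervalIntegral.integral_finsetSum]
  · simp only [intervalIntegral.integral_const_mul, integral_pow]
    simp only [Finset.sum_range_succ, Finset.sum_range_zero, rc, List.getD_cons_zero,
      List.getD_cons_succ]
    norm_num
  · intro k _
    exact (Continuous.intervalIntegrable (by fun_prop) _ _)

theorem g_sin_le {y : ℝ} (hy : 0 < y) (hy2 : y ≤ 9 / 2) : g y * sin (y / 2) ≤ Rp y := by
  have hpi := pi_gt_three
  have hs0 : 0 ≤ sin (y / 2) := sin_nonneg_of_nonneg_of_le_pi (by linarith) (by linarith)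
  have hs1 := sin_le_S5 (t := y / 2) (by linarith)
  have hs2 := sin_ge_S6 (t := y / 2) (by linarith)
  set s := sin (y / 2) with hs
  set Pg : ℝ := 1 / 3 - y ^ 2 / 30 + y ^ 4 / 840 - y ^ 6 / 45360 + y ^ 8 / 3991680
    - y ^ 10 / 518918400 + y ^ 12 / 93405312000 with hPg
  set Ps : ℝ := (y / 2) - (y / 2) ^ 3 / 6 + (y / 2) ^ 5 / 120 - (y / 2) ^ 7 / 5040
    + (y / 2) ^ 9 / 362880 with hPs
  have hg1 : g y ≤ Pg := by
    unfold g
    rw [div_le_iff₀ (by positivity)]
    have := gn_le_S hy.le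
    rw [hPg]
    linarith
  have hg2 : -(1 / 3) ≤ g y := by
    unfold g
    rw [le_div_iff₀ (by positivity)]
    linarith [gn_ge_neg hy.le]
  have h1 : g y * s ≤ Pg * s := mul_le_mul_of_nonneg_right hg1 hs0
  have h2 : Pg * s ≤ Pg * Ps + 1 / 3 * ((y / 2) ^ 11 / 39916800) := by
    have h3 : 0 ≤ (Pg + 1 / 3) * (Ps - s) := mul_nonneg (by linarith) (by linarith)
    have h4 : Ps - s ≤ (y / 2) ^ 11 / 39916800 := by linarith
    nlinarith
  refine (h1.trans h2).trans (le_of_eq ?_)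
  unfold Rp
  simp only [Finset.sum_range_succ, Finset.sum_range_zero, rc, List.getD_cons_zero,
      List.getD_cons_succ]
  rw [hPg, hPs]
  ring

theorem first_part {u u' : ℝ → ℝ} (hu : ∀ y, HasDerivAt u (u' y) y)
    (hb : ∀ y, u y ^ 2 + 4 * u' y ^ 2 ≤ 1) (h0 : u 0 = 1) :
    1 / 3 - |g (9 / 2)| - 48151 / 200000 ≤ ∫ y in (0 : ℝ)..(9 / 2), f y * u y := by
  have hpi := pi_gt_three
  have huc : Continuous u := continuous_iff_continuousAt.2 fun y => (hu y).continuousAt
  have hfi : IntervalIntegrable f volume 0 (9 / 2) := by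
    rw [intervalIntegrable_iff_integrableOn_Ioc_of_le (by norm_num)]
    exact integrableOn_f.mono_set Ioc_subset_Ioi_self
  have hfc : IntervalIntegrable (fun y => f y * cos (y / 2)) volume 0 (9 / 2) :=
    hfi.mul_continuousOn (by fun_prop)
  have hfu : IntervalIntegrable (fun y => f y * u y) volume 0 (9 / 2) :=
    hfi.mul_continuousOn huc.continuousOn
  have hgb : ∀ y ∈ Ioc (0 : ℝ) (9 / 2), |g y| ≤ 1 / 3 := by
    intro y hy
    unfold g
    rw [abs_div, abs_of_pos (by have := hy.1; positivity : (0 : ℝ) < y ^ 3),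
      div_le_iff₀ (by have := hy.1; positivity), abs_le]
    have h1 := gn_le hy.1.le
    have h2 := gn_ge_neg hy.1.le
    constructor <;> linarith
  have hgm : Measurable g := by
    unfold g gn
    fun_prop
  have hgi : IntervalIntegrable g volume 0 (9 / 2) := by
    rw [intervalIntegrable_iff_integrableOn_Ioc_of_le (by norm_num)]
    apply Measure.integrableOn_of_bounded (M := 1 / 3) (by simp) hgm.aestronglyMeasurable
    rw [ae_restrict_iff' measurableSet_Ioc]
    filter_upwards with y hy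
    rw [norm_eq_abs]
    exact hgb y hy
  have hgs : IntervalIntegrable (fun y => g y * sin (y / 2)) volume 0 (9 / 2) :=
    hgi.mul_continuousOn (by fun_prop)
  -- integration by parts
  have hparts : ∫ y in (0 : ℝ)..(9 / 2), (f y * cos (y / 2) + 1 / 2 * (g y * sin (y / 2))) =
      -(g (9 / 2) * cos (9 / 2 / 2)) - (-(1 / 3 * cos (0 / 2))) := by
    have hdg : ∀ y ∈ Ioo (0 : ℝ) (9 / 2), HasDerivAt (fun y => -(g y * cos (y / 2)))
        (f y * cos (y / 2) + 1 / 2 * (g y * sin (y / 2))) y := by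
      intro y hy
      have h1 := hasDerivAt_g hy.1.ne'
      have h2 : HasDerivAt (fun y : ℝ => cos (y / 2)) (-sin (y / 2) * (1 / 2)) y :=
        ((hasDerivAt_id y).div_const 2).cos
      refine (h1.mul h2).neg.congr_deriv ?_
      ring
    refine intervalIntegral.integral_eq_sub_of_hasDerivAt_of_tendsto (by norm_num) hdg
      (hfc.add (hgs.const_mul _)) ?_ ?_
    · refine (tendsto_g_zero.mul ?_).neg
      apply Tendsto.mono_left _ nhdsWithin_le_nhds
      exact (Continuous.tendsto (by fun_prop) 0)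
    · apply Tendsto.mono_left _ nhdsWithin_le_nhds
      have h1 : ContinuousAt g (9 / 2) := (hasDerivAt_g (by norm_num)).continuousAt
      have h2 : ContinuousAt (fun y : ℝ => cos (y / 2)) (9 / 2) := by fun_prop
      exact (h1.mul h2).neg
  rw [intervalIntegral.integral_add hfc (hgs.const_mul _),
    intervalIntegral.integral_const_mul] at hparts
  have hRi : IntervalIntegrable Rp volume 0 (9 / 2) := by
    apply Continuous.intervalIntegrable
    unfold Rp
    fun_prop
  have h2 : ∫ y in (0 : ℝ)..(9 / 2), g y * sin (y / 2) ≤ 48151 / 100000 := by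
    refine le_trans ?_ integral_Rp
    refine intervalIntegral.integral_mono_on_of_le_Ioo (by norm_num) hgs hRi ?_
    intro y hy
    exact g_sin_le hy.1 hy.2.le
  have h3 : ∫ y in (0 : ℝ)..(9 / 2), f y * cos (y / 2) ≤ ∫ y in (0 : ℝ)..(9 / 2), f y * u y := by
    refine intervalIntegral.integral_mono_on_of_le_Ioo (by norm_num) hfc hfu ?_
    intro y hy
    exact mul_le_mul_of_nonneg_left (cos_le_u hu hb h0 hy.1.le (by linarith [hy.2]))
      (f_nonneg hy.1 hy.2.le)
  have h4 : g (9 / 2) * cos (9 / 2 / 2) ≤ |g (9 / 2)| := by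
    refine (le_abs_self _).trans ?_
    rw [abs_mul]
    exact mul_le_of_le_one_right (abs_nonneg _) (abs_cos_le_one _)
  simp only [zero_div, cos_zero] at hparts
  linarith

/-! ### The second part -/

/-- The bound for the tail. -/
noncomputable def hb1 (y : ℝ) : ℝ :=
  1 / y ^ 2 + 1 / y ^ 3 + 9 / 2 / y ^ 4 + 9 / 2 / y ^ 5 + 9 / 2 / y ^ 6

/-- Its primitive. -/
noncomputable def Hb (y : ℝ) : ℝ :=
  -(1 / y + 1 / 2 / y ^ 2 + 3 / 2 / y ^ 3 + 9 / 8 / y ^ 4 + 9 / 10 / y ^ 5)

theorem hasDerivAt_Hb {y : ℝ} (hy : 0 < y) : HasDerivAt Hb (hb1 y) y := by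
  have h : ∀ (c : ℝ) (n : ℕ), HasDerivAt (fun y : ℝ => c / y ^ n) (-(c * n / y ^ (n + 1))) y := by
    intro c n
    have h1 := ((hasDerivAt_pow n y).inv (pow_ne_zero n hy.ne')).const_mul c
    have h2 : HasDerivAt (fun y : ℝ => c / y ^ n) (c * (-(n * y ^ (n - 1)) / (y ^ n) ^ 2)) y := h1
    refine h2.congr_deriv ?_
    rcases n with _ | n
    · simp
    · simp only [Nat.add_sub_cancel]
      field_simp
      ring
  have h1 := (((((h 1 1).add (h (1 / 2) 2)).add (h (3 / 2) 3)).add (h (9 / 8) 4)).add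
    (h (9 / 10) 5)).neg
  unfold Hb hb1
  simp only [pow_one] at h1
  refine h1.congr_deriv ?_
  norm_num
  ring

theorem tail_pointwise {y a b : ℝ} (hy : 0 < y) (hab : a ^ 2 + b ^ 2 ≤ 1) :
    -hb1 y ≤ f y * a + g y * b := by
  -- `2 |f a + g b| ≤ y^2 (f^2+g^2) + (a^2+b^2)/y^2`
  have h1 : -(y ^ 2 * (f y ^ 2 + g y ^ 2) + (a ^ 2 + b ^ 2) / y ^ 2) ≤ 2 * (f y * a + g y * b) := by
    have h2 : 0 ≤ (y * f y + a / y) ^ 2 + (y * g y + b / y) ^ 2 := by positivity
    have h3 : (y * f y + a / y) ^ 2 + (y * g y + b / y) ^ 2 =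
        (y ^ 2 * (f y ^ 2 + g y ^ 2) + (a ^ 2 + b ^ 2) / y ^ 2) + 2 * (f y * a + g y * b) := by
      field_simp
      ring
    linarith
  have h4 : (a ^ 2 + b ^ 2) / y ^ 2 ≤ 1 / y ^ 2 := by gcongr
  have h5 : y ^ 2 * (f y ^ 2 + g y ^ 2) ≤ 2 * hb1 y - 1 / y ^ 2 := by
    unfold hb1 f g fn gn
    have hsc := sin_sq_add_cos_sq y
    set s := sin y
    set c := cos y
    have e1 : y ^ 2 * (((3 * s - 3 * y * c - y ^ 2 * s) / y ^ 4) ^ 2 + ((s - y * c) / y ^ 3) ^ 2) =
        (y ^ 4 + 4 * s * c * y ^ 3 + (9 * c ^ 2 - 5 * s ^ 2) * y ^ 2 - 18 * s * c * y + 9 * s ^ 2)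
          / y ^ 6 := by
      have hc : c ^ 2 = 1 - s ^ 2 := by linarith
      have h6 : y ^ 4 = y ^ 4 * (s ^ 2 + c ^ 2) := by rw [hsc, mul_one]
      rw [div_pow, div_pow, ← pow_mul, ← pow_mul]
      rw [show (y : ℝ) ^ 4 + 4 * s * c * y ^ 3 = y ^ 4 * (s ^ 2 + c ^ 2) + 4 * s * c * y ^ 3 by
        rw [hsc, mul_one]]
      field_simp
      ring
    rw [e1]
    have e2 : 2 * (1 / y ^ 2 + 1 / y ^ 3 + 9 / 2 / y ^ 4 + 9 / 2 / y ^ 5 + 9 / 2 / y ^ 6) - 1 / y ^ 2 =
        (y ^ 4 + 2 * y ^ 3 + 9 * y ^ 2 + 9 * y + 9) / y ^ 6 := by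
      field_simp
      ring
    rw [e2]
    gcongr ?_ / _
    have h7 : s * c ≤ 1 / 2 := by nlinarith [sq_nonneg (s - c)]
    have h8 : -(1 / 2) ≤ s * c := by nlinarith [sq_nonneg (s + c)]
    have h9 : 9 * c ^ 2 - 5 * s ^ 2 ≤ 9 := by nlinarith [sq_nonneg s]
    have h10 : 9 * s ^ 2 ≤ 9 := by nlinarith [sq_nonneg c]
    nlinarith [mul_le_mul_of_nonneg_right h7 (by positivity : 0 ≤ y ^ 3),
      mul_le_mul_of_nonneg_right h8 hy.le, mul_le_mul_of_nonneg_right h9 (by positivity : 0 ≤ y ^ 2)]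
  linarith

theorem tendsto_inv_pow_atTop (c : ℝ) (n : ℕ) (hn : n ≠ 0) :
    Tendsto (fun y : ℝ => c / y ^ n) atTop (𝓝 0) :=
  (tendsto_const_nhds).div_atTop (tendsto_pow_atTop hn)

theorem tendsto_Hb : Tendsto Hb atTop (𝓝 0) := by
  unfold Hb
  have h := ((((tendsto_inv_pow_atTop 1 1 (by norm_num)).add
    (tendsto_inv_pow_atTop (1 / 2) 2 (by norm_num))).add
    (tendsto_inv_pow_atTop (3 / 2) 3 (by norm_num))).add
    (tendsto_inv_pow_atTop (9 / 8) 4 (by norm_num))).add
    (tendsto_inv_pow_atTop (9 / 10) 5 (by norm_num))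
  have h2 := h.neg
  simpa using h2

theorem abs_g_le_inv {y : ℝ} (hy : 1 ≤ y) : |g y| ≤ 2 / y ^ 2 := by
  unfold g gn
  rw [abs_div, abs_of_pos (by positivity : (0 : ℝ) < y ^ 3),
    div_le_div_iff₀ (by positivity) (by positivity)]
  have h1 := abs_le.1 (abs_sin_le_one y)
  have h2 := abs_le.1 (abs_cos_le_one y)
  have h3 : |sin y - y * cos y| ≤ 2 * y := by
    rw [abs_le]
    constructor <;> nlinarith
  nlinarith [sq_nonneg y]

theorem tendsto_g_atTop : Tendsto g atTop (𝓝 0) := by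
  rw [tendsto_zero_iff_abs_tendsto_zero]
  refine squeeze_zero' (Eventually.of_forall fun _ => abs_nonneg _) ?_
    (tendsto_inv_pow_atTop 2 2 (by norm_num))
  filter_upwards [eventually_ge_atTop 1] with y hy
  exact abs_g_le_inv hy

theorem hb1_nonneg {y : ℝ} (hy : 0 < y) : 0 ≤ hb1 y := by
  unfold hb1
  positivity

theorem integrableOn_hb1 : IntegrableOn hb1 (Ioi (9 / 2)) := by
  refine integrableOn_Ioi_deriv_of_nonneg (g := Hb) (l := 0) ?_ ?_ ?_ tendsto_Hb
  · exact (hasDerivAt_Hb (by norm_num)).continuousAt.continuousWithinAt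
  · intro y hy
    exact hasDerivAt_Hb (lt_trans (by norm_num) hy)
  · intro y hy
    exact hb1_nonneg (lt_trans (by norm_num) hy)

theorem second_part {u u' : ℝ → ℝ} (hu : ∀ y, HasDerivAt u (u' y) y) (hc : Continuous u')
    (hb : ∀ y, u y ^ 2 + 4 * u' y ^ 2 ≤ 1) :
    -(2 / 3) * |g (9 / 2)| + 1 / 3 * Hb (9 / 2) ≤ ∫ y in Ioi (9 / 2 : ℝ), f y * u y := by
  have huc : Continuous u := continuous_iff_continuousAt.2 fun y => (hu y).continuousAt
  have hu1 : ∀ y, |u y| ≤ 1 := by
    intro y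
    rw [← sq_le_one_iff_abs_le_one]
    nlinarith [hb y, sq_nonneg (u' y)]
  have hu2 : ∀ y, |u' y| ≤ 1 := by
    intro y
    rw [← sq_le_one_iff_abs_le_one]
    nlinarith [hb y, sq_nonneg (u y), sq_nonneg (u' y)]
  have hfi : IntegrableOn f (Ioi (9 / 2)) := integrableOn_f.mono_set (Ioi_subset_Ioi (by norm_num))
  have hfu : IntegrableOn (fun y => f y * u y) (Ioi (9 / 2)) := by
    refine Integrable.mono' hfi.norm (measurable_f.aestronglyMeasurable.mul
      huc.aestronglyMeasurable) ?_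
    filter_upwards with y
    rw [norm_mul, norm_eq_abs (u y)]
    exact mul_le_of_le_one_right (norm_nonneg _) (hu1 y)
  have hgm : Measurable g := by
    unfold g gn
    fun_prop
  have hgi : IntegrableOn g (Ioi (9 / 2)) := by
    have h3 : IntegrableOn (fun y : ℝ => 2 * y ^ (-2 : ℝ)) (Ioi (9 / 2)) :=
      (integrableOn_Ioi_rpow_of_lt (by norm_num) (by norm_num)).const_mul 2
    refine Integrable.mono' h3 hgm.aestronglyMeasurable ?_
    rw [ae_restrict_iff' measurableSet_Ioi]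
    filter_upwards with y hy
    have hy1 : (9 / 2 : ℝ) < y := hy
    rw [norm_eq_abs]
    refine (abs_g_le_inv (by linarith)).trans (le_of_eq ?_)
    rw [rpow_neg (by linarith), div_eq_mul_inv]
    norm_num
  have hgu : IntegrableOn (fun y => g y * u' y) (Ioi (9 / 2)) := by
    refine Integrable.mono' hgi.norm (hgm.aestronglyMeasurable.mul
      hc.aestronglyMeasurable) ?_
    filter_upwards with y
    rw [norm_mul, norm_eq_abs (u' y)]
    exact mul_le_of_le_one_right (norm_nonneg _) (hu2 y)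
  -- the comparison function is a derivative
  have hφi : IntegrableOn (fun y => -(2 / 3) * (-(f y * u y) + g y * u' y) - 1 / 3 * hb1 y)
      (Ioi (9 / 2)) :=
    ((hfu.neg.add hgu).const_mul _).sub (integrableOn_hb1.const_mul _)
  have hint : ∫ y in Ioi (9 / 2 : ℝ), (-(2 / 3) * (-(f y * u y) + g y * u' y) - 1 / 3 * hb1 y) =
      0 - (-(2 / 3) * (g (9 / 2) * u (9 / 2)) - 1 / 3 * Hb (9 / 2)) := by
    have hd : ∀ y ∈ Ici (9 / 2 : ℝ), HasDerivAt (fun y => -(2 / 3) * (g y * u y) - 1 / 3 * Hb y)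
        (-(2 / 3) * (-(f y * u y) + g y * u' y) - 1 / 3 * hb1 y) y := by
      intro y hy
      have hy0 : (0 : ℝ) < y := lt_of_lt_of_le (by norm_num) hy
      have h1 := ((hasDerivAt_g hy0.ne').mul (hu y)).const_mul (-(2 / 3) : ℝ)
      have h2 := (hasDerivAt_Hb hy0).const_mul (1 / 3 : ℝ)
      refine (h1.sub h2).congr_deriv ?_
      ring
    refine integral_Ioi_of_hasDerivAt_of_tendsto' hd hφi ?_
    have h1 : Tendsto (fun y => g y * u y) atTop (𝓝 0) := by
      rw [tendsto_zero_iff_abs_tendsto_zero]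
      refine squeeze_zero' (Eventually.of_forall fun _ => abs_nonneg _) ?_
        (tendsto_zero_iff_abs_tendsto_zero _ |>.1 tendsto_g_atTop)
      filter_upwards with y
      simp only [Function.comp]
      rw [abs_mul]
      exact mul_le_of_le_one_right (abs_nonneg _) (hu1 y)
    have h2 := (h1.const_mul (-(2 / 3) : ℝ)).sub (tendsto_Hb.const_mul (1 / 3 : ℝ))
    simpa using h2
  have hmono : ∫ y in Ioi (9 / 2 : ℝ), (-(2 / 3) * (-(f y * u y) + g y * u' y) - 1 / 3 * hb1 y) ≤
      ∫ y in Ioi (9 / 2 : ℝ), f y * u y := by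
    refine setIntegral_mono_on hφi hfu measurableSet_Ioi ?_
    intro y hy
    have hy0 : (0 : ℝ) < y := lt_trans (by norm_num) hy
    have h1 := tail_pointwise hy0 (a := u y) (b := 2 * u' y) (by nlinarith [hb y])
    nlinarith
  rw [hint] at hmono
  have h4 : -|g (9 / 2)| ≤ g (9 / 2) * u (9 / 2) := by
    have : |g (9 / 2) * u (9 / 2)| ≤ |g (9 / 2)| := by
      rw [abs_mul]
      exact mul_le_of_le_one_right (abs_nonneg _) (hu1 _)
    exact neg_le_of_abs_le this
  linarith

/-- The main inequality. -/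
theorem main_ineq {u u' : ℝ → ℝ} (hu : ∀ y, HasDerivAt u (u' y) y) (hc : Continuous u')
    (hb : ∀ y, u y ^ 2 + 4 * u' y ^ 2 ≤ 1) (h0 : u 0 = 1) :
    3 / 1000 ≤ ∫ y in Ioi (0 : ℝ), f y * u y := by
  have huc : Continuous u := continuous_iff_continuousAt.2 fun y => (hu y).continuousAt
  have hu1 : ∀ y, |u y| ≤ 1 := by
    intro y
    rw [← sq_le_one_iff_abs_le_one]
    nlinarith [hb y, sq_nonneg (u' y)]
  have hfu : IntegrableOn (fun y => f y * u y) (Ioi 0) := by
    refine Integrable.mono' integrableOn_f.norm (measurable_f.aestronglyMeasurable.mul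
      huc.aestronglyMeasurable) ?_
    filter_upwards with y
    rw [norm_mul, norm_eq_abs (u y)]
    exact mul_le_of_le_one_right (norm_nonneg _) (hu1 y)
  have h1 := first_part hu hb h0
  have h2 := second_part hu hc hb
  have h3 : ∫ y in Ioi (0 : ℝ), f y * u y = (∫ y in (0 : ℝ)..(9 / 2), f y * u y) +
      ∫ y in Ioi (9 / 2 : ℝ), f y * u y := by
    rw [intervalIntegral.integral_of_le (by norm_num), ← setIntegral_union
      (Ioc_disjoint_Ioi le_rfl) measurableSet_Ioi (hfu.mono_set Ioc_subset_Ioi_self)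
      (hfu.mono_set (Ioi_subset_Ioi (by norm_num))), Ioc_union_Ioi_eq_Ioi (by norm_num)]
  have h4 := abs_g_le
  have h5 : -(267 / 1000) ≤ Hb (9 / 2) := by
    unfold Hb
    norm_num
  rw [h3]
  linarith

end SpecVar
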