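import Mathlib
import Pool.Agent.Lib.MP_29a676_an.Ineq

/-!
Fourier transform on `ℂ` of the window `(1 - ‖z‖ ^ 2) ^ (3 / 2)`, the orthogonality relation it
gives for the kernel, and the analytic core `main_contra`.
-/

namespace SpecVar

open Set Filter Topology MeasureTheory Complex FourierTransform
open scoped Real RealInnerProductSpace

/-- The window. -/
noncomputable def w (z : ℂ) : ℂ := ((Real.sqrt (1 - ‖z‖ ^ 2) ^ 3 : ℝ) : ℂ)

theorem continuous_w : Continuous w := by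
  unfold w; fun_prop

theorem w_eq_zero {z : ℂ} (hz : 1 ≤ ‖z‖) : w z = 0 := by
  unfold w
  rw [Real.sqrt_eq_zero_of_nonpos (by nlinarith)]
  simp

theorem hasCompactSupport_w : HasCompactSupport w := by
  refine HasCompactSupport.intro (isCompact_closedBall (0 : ℂ) 1) ?_
  intro z hz
  apply w_eq_zero
  simp at hz
  exact hz.le

theorem integrable_w : Integrable w :=
  continuous_w.integrable_of_hasCompactSupport hasCompactSupport_w

/-- The constant. -/
noncomputable def K : ℝ := ∫ t : ℝ, Real.sqrt (1 - t ^ 2) ^ 3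

theorem K_pos : 0 < K := by
  unfold K
  refine Continuous.integral_pos_of_hasCompactSupport_nonneg_nonzero (x := 0) ?_ ?_ ?_ ?_
  · fun_prop
  · refine HasCompactSupport.intro (isCompact_Icc (a := (-1 : ℝ)) (b := 1)) ?_
    intro t ht
    have : 1 - t ^ 2 ≤ 0 := by
      by_contra h
      push Not at h
      exact ht ⟨by nlinarith, by nlinarith⟩
    rw [Real.sqrt_eq_zero_of_nonpos this]
    simp
  · intro t
    positivity
  · simp

theorem inner_integral (x : ℝ) : ∫ y : ℝ, Real.sqrt (1 - (x ^ 2 + y ^ 2)) ^ 3 =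
    (if x ∈ Icc (-1 : ℝ) 1 then (1 - x ^ 2) ^ 2 else 0) * K := by
  split_ifs with hx
  · have h1 : 0 ≤ 1 - x ^ 2 := by nlinarith [hx.1, hx.2]
    rcases h1.lt_or_eq with h2 | h2
    · set a := Real.sqrt (1 - x ^ 2) with ha
      have ha0 : 0 < a := Real.sqrt_pos.mpr h2
      have ha2 : a ^ 2 = 1 - x ^ 2 := Real.sq_sqrt h1
      have h3 := Measure.integral_comp_mul_left
        (fun y : ℝ => Real.sqrt (1 - (x ^ 2 + y ^ 2)) ^ 3) a
      have h4 : (fun t : ℝ => Real.sqrt (1 - (x ^ 2 + (a * t) ^ 2)) ^ 3) =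
          fun t => a ^ 3 * Real.sqrt (1 - t ^ 2) ^ 3 := by
        funext t
        rw [show 1 - (x ^ 2 + (a * t) ^ 2) = a ^ 2 * (1 - t ^ 2) by rw [mul_pow, ha2]; ring,
          Real.sqrt_mul (sq_nonneg a), Real.sqrt_sq ha0.le, mul_pow]
      rw [h4, integral_const_mul, abs_of_pos (inv_pos.mpr ha0), smul_eq_mul] at h3
      have h5 : a * (a ^ 3 * K) = ∫ y : ℝ, Real.sqrt (1 - (x ^ 2 + y ^ 2)) ^ 3 := by
        unfold K
        rw [h3, ← mul_assoc, mul_inv_cancel₀ ha0.ne', one_mul]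
      rw [← h5, ← ha2]
      ring
    · rw [← h2]
      have : (fun y : ℝ => Real.sqrt (1 - (x ^ 2 + y ^ 2)) ^ 3) = fun _ => (0 : ℝ) := by
        funext y
        rw [Real.sqrt_eq_zero_of_nonpos (by nlinarith)]
        simp
      rw [this]
      simp
  · have hx2 : 1 - x ^ 2 ≤ 0 := by
      by_contra h
      push Not at h
      exact hx ⟨by nlinarith, by nlinarith⟩
    have : (fun y : ℝ => Real.sqrt (1 - (x ^ 2 + y ^ 2)) ^ 3) = fun _ => (0 : ℝ) := by
      funext y
      rw [Real.sqrt_eq_zero_of_nonpos (by nlinarith [sq_nonneg y])]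
      simp
    rw [this]
    simp

/-- Antiderivative used for the one dimensional Fourier transform. -/
noncomputable def Fa (c : ℂ) (x : ℝ) : ℂ :=
  cexp (c * x) * ((1 - (x : ℂ) ^ 2) ^ 2 / c - (-4 * x + 4 * (x : ℂ) ^ 3) / c ^ 2
    + (-4 + 12 * (x : ℂ) ^ 2) / c ^ 3 - 24 * x / c ^ 4 + 24 / c ^ 5)

theorem hasDerivAt_Fa {c : ℂ} (hc : c ≠ 0) (x : ℝ) :
    HasDerivAt (Fa c) (cexp (c * x) * (1 - (x : ℂ) ^ 2) ^ 2) x := by
  have key : HasDerivAt (fun z : ℂ => cexp (c * z) * ((1 - z ^ 2) ^ 2 / c -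
      (-4 * z + 4 * z ^ 3) / c ^ 2
      + (-4 + 12 * z ^ 2) / c ^ 3 - 24 * z / c ^ 4 + 24 / c ^ 5))
      (cexp (c * x) * (1 - (x : ℂ) ^ 2) ^ 2) (x : ℂ) := by
    have h1 : HasDerivAt (fun z : ℂ => cexp (c * z)) (cexp (c * x) * c) (x : ℂ) := by
      have := ((hasDerivAt_id (x : ℂ)).const_mul c).cexp
      simpa using this
    have h2 : HasDerivAt (fun z : ℂ => (1 - z ^ 2) ^ 2 / c - (-4 * z + 4 * z ^ 3) / c ^ 2
      + (-4 + 12 * z ^ 2) / c ^ 3 - 24 * z / c ^ 4 + 24 / c ^ 5)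
      ((-4 * x + 4 * (x : ℂ) ^ 3) / c - (-4 + 12 * (x : ℂ) ^ 2) / c ^ 2
      + (24 * x) / c ^ 3 - 24 / c ^ 4) (x : ℂ) := by
      have e1 : HasDerivAt (fun z : ℂ => z) 1 (x : ℂ) := hasDerivAt_id _
      have e2 : HasDerivAt (fun z : ℂ => z ^ 2) (2 * x) (x : ℂ) := by
        simpa using hasDerivAt_pow 2 (x : ℂ)
      have e3 : HasDerivAt (fun z : ℂ => z ^ 3) (3 * (x : ℂ) ^ 2) (x : ℂ) := by
        simpa using hasDerivAt_pow 3 (x : ℂ)
      have e4 : HasDerivAt (fun z : ℂ => (1 - z ^ 2) ^ 2) (-4 * x + 4 * (x : ℂ) ^ 3) (x : ℂ) := by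
        have := (e2.const_sub 1).pow 2
        refine this.congr_deriv ?_
        push_cast
        ring
      have := ((((e4.div_const c).sub ((((e1.const_mul (-4)).add (e3.const_mul 4))).div_const
        (c ^ 2))).add (((e2.const_mul 12).const_add (-4)).div_const (c ^ 3))).sub
        ((e1.const_mul 24).div_const (c ^ 4))).add_const (24 / c ^ 5)
      refine this.congr_deriv ?_
      ring
    have h3 := h1.mul h2
    refine h3.congr_deriv ?_
    field_simp
    ring
  exact key.comp_ofReal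

theorem integral_quartic {R : ℝ} (hR : 0 < R) :
    ∫ x in (-1 : ℝ)..1, cexp (-(R * x) * I) * (1 - (x : ℂ) ^ 2) ^ 2 =
      ((16 * (f R / R) : ℝ) : ℂ) := by
  set c : ℂ := -(R * I) with hc
  have hR' : (R : ℂ) ≠ 0 := by exact_mod_cast hR.ne'
  have hc0 : c ≠ 0 := by
    rw [hc]
    simp [hR.ne']
  have h1 : ∀ x : ℝ, cexp (-(R * x) * I) * (1 - (x : ℂ) ^ 2) ^ 2 =
      cexp (c * x) * (1 - (x : ℂ) ^ 2) ^ 2 := by
    intro x
    rw [hc]
    congr 2
    ring
  simp_rw [h1]
  rw [intervalIntegral.integral_eq_sub_of_hasDerivAt (f := Fa c)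
    (fun x _ => hasDerivAt_Fa hc0 x)]
  · have e1 : cexp (c * (1 : ℝ)) = Real.cos R - Real.sin R * I := by
      rw [hc]
      push_cast
      rw [mul_one, Complex.exp_neg, Complex.exp_mul_I]
      rw [inv_eq_one_div, div_eq_iff]
      · have := Complex.cos_sq_add_sin_sq (R : ℂ)
        ring_nf
        rw [I_sq]
        linear_combination -this
      · rw [← Complex.exp_mul_I]
        exact Complex.exp_ne_zero _
    have e2 : cexp (c * (-1 : ℝ)) = Real.cos R + Real.sin R * I := by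
      rw [hc]
      push_cast
      rw [mul_neg_one, neg_neg, Complex.exp_mul_I]
    unfold Fa
    rw [e1, e2]
    unfold f fn
    rw [hc]
    push_cast
    have hI3 : I ^ 3 = -I := by rw [pow_succ, I_sq]; ring
    have hI4 : I ^ 4 = 1 := by rw [pow_succ, hI3]; ring_nf; rw [I_sq]; ring
    have hI5 : I ^ 5 = I := by rw [pow_succ, hI4]; ring
    have g2 : (-(R * I : ℂ)) ^ 2 = -(R : ℂ) ^ 2 := by
      rw [neg_sq, mul_pow, I_sq]; ring
    have g3 : (-(R * I : ℂ)) ^ 3 = (R : ℂ) ^ 3 * I := by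
      rw [show (-(R * I : ℂ)) ^ 3 = -((R : ℂ) ^ 3 * I ^ 3) by ring, hI3]; ring
    have g4 : (-(R * I : ℂ)) ^ 4 = (R : ℂ) ^ 4 := by
      rw [show (-(R * I : ℂ)) ^ 4 = ((R : ℂ) ^ 4 * I ^ 4) by ring, hI4]; ring
    have g5 : (-(R * I : ℂ)) ^ 5 = -((R : ℂ) ^ 5 * I) := by
      rw [show (-(R * I : ℂ)) ^ 5 = -((R : ℂ) ^ 5 * I ^ 5) by ring, hI5]
    rw [g2, g3, g4, g5]
    have hI : I ≠ 0 := I_ne_zero
    field_simp
    ring
  · apply Continuous.intervalIntegrable
    fun_prop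

theorem norm_sq_mk (x y : ℝ) : ‖(⟨x, y⟩ : ℂ)‖ ^ 2 = x ^ 2 + y ^ 2 := by
  rw [Complex.sq_norm, Complex.normSq_mk]
  ring

theorem fourier_w_real (r : ℝ) (hr : 0 < r) :
    𝓕 w (r : ℂ) = ((16 * K * (f (2 * π * r) / (2 * π * r)) : ℝ) : ℂ) := by
  rw [Real.fourier_eq']
  rw [← (Complex.volume_preserving_equiv_real_prod.symm).integral_comp
    measurableEquivRealProd.symm.measurableEmbedding]
  have hint : Integrable (fun p : ℝ × ℝ =>
      cexp ((↑(-2 * π * ⟪measurableEquivRealProd.symm p, (r : ℂ)⟫) * Complex.I)) •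
        w (measurableEquivRealProd.symm p)) := by
    have h1 : Integrable (fun v : ℂ => cexp ((↑(-2 * π * ⟪v, (r : ℂ)⟫) * Complex.I)) • w v) := by
      apply Continuous.integrable_of_hasCompactSupport
      · have := continuous_w
        fun_prop
      · refine HasCompactSupport.intro (isCompact_closedBall (0 : ℂ) 1) ?_
        intro z hz
        rw [w_eq_zero, smul_zero]
        simp only [Metric.mem_closedBall, dist_zero_right, not_le] at hz
        exact hz.le
    exact ((Complex.volume_preserving_equiv_real_prod.symm).integrable_comp_emb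
      measurableEquivRealProd.symm.measurableEmbedding).mpr h1
  have hvol : (volume : Measure (ℝ × ℝ)) = (volume : Measure ℝ).prod volume := rfl
  rw [hvol] at hint ⊢
  rw [integral_prod _ hint]
  have h2 : ∀ x : ℝ, (∫ y : ℝ, cexp ((↑(-2 * π * ⟪measurableEquivRealProd.symm (x, y),
      (r : ℂ)⟫) * Complex.I)) • w (measurableEquivRealProd.symm (x, y))) =
      (Icc (-1 : ℝ) 1).indicator (fun x : ℝ => cexp (-((2 * π * r : ℝ) * x) * I) *
        (1 - (x : ℂ) ^ 2) ^ 2) x * (K : ℂ) := by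
    intro x
    have h3 : ∀ y : ℝ, cexp ((↑(-2 * π * ⟪measurableEquivRealProd.symm (x, y),
      (r : ℂ)⟫) * Complex.I)) • w (measurableEquivRealProd.symm (x, y)) =
      cexp (-((2 * π * r : ℝ) * x) * I) *
        ((Real.sqrt (1 - (x ^ 2 + y ^ 2)) ^ 3 : ℝ) : ℂ) := by
      intro y
      rw [measurableEquivRealProd_symm_apply, smul_eq_mul]
      unfold w
      rw [norm_sq_mk]
      congr 2
      rw [Complex.inner]
      simp
      ring
    simp_rw [h3]
    rw [integral_const_mul, integral_complex_ofReal, inner_integral]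
    by_cases hx : x ∈ Icc (-1 : ℝ) 1
    · rw [if_pos hx, indicator_of_mem hx]
      push_cast
      ring
    · rw [if_neg hx, indicator_of_notMem hx]
      simp
  simp_rw [h2]
  rw [integral_mul_const, integral_indicator measurableSet_Icc, integral_Icc_eq_integral_Ioc,
    ← intervalIntegral.integral_of_le (by norm_num), integral_quartic (by positivity)]
  push_cast
  ring

theorem fourier_w {ζ : ℂ} (hζ : ζ ≠ 0) :
    𝓕 w ζ = ((16 * K * (f (2 * π * ‖ζ‖) / (2 * π * ‖ζ‖)) : ℝ) : ℂ) := by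
  have hn : 0 < ‖ζ‖ := norm_pos_iff.mpr hζ
  rw [← fourier_w_real ‖ζ‖ hn]
  have h1 : w ∘ (rotation (Circle.exp (arg ζ))) = w := by
    funext z
    simp [w]
  have h2 : rotation (Circle.exp (arg ζ)) (‖ζ‖ : ℂ) = ζ := by
    rw [rotation_apply, Circle.coe_exp, mul_comm]
    exact Complex.norm_mul_exp_arg_mul_I ζ
  conv_lhs => rw [← h2]
  rw [← Real.fourier_comp_linearIsometry, h1]

/-- The kernel. -/
noncomputable def kern (ζ : ℂ) : ℝ := f (2 * π * ‖ζ‖) / (2 * π * ‖ζ‖)

theorem abs_kern_le (ζ : ℂ) : |kern ζ| ≤ 56 * (1 + ‖ζ‖) ^ (-(3 : ℝ)) := by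
  unfold kern
  have hn : 0 ≤ ‖ζ‖ := norm_nonneg ζ
  rcases hn.eq_or_lt with h0 | hpos
  · rw [← h0]
    simp
  set y := 2 * π * ‖ζ‖ with hy
  have hypos : 0 < y := by positivity
  have hyn : ‖ζ‖ ≤ y := by
    rw [hy]
    nlinarith [Real.pi_gt_three]
  have h1 : |f y / y| ≤ 56 / (1 + y) ^ 3 := by
    rw [abs_div, abs_of_pos hypos]
    rcases le_or_gt 1 y with h | h
    · rw [div_le_div_iff₀ hypos (by positivity)]
      have h2 := abs_f_le_sq h
      have h3 : |f y| * y ^ 2 ≤ 7 := by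
        rwa [le_div_iff₀ (by positivity)] at h2
      have h4 : (1 + y) ^ 3 ≤ 8 * y ^ 3 := by
        have : (1 + y) ^ 3 ≤ (2 * y) ^ 3 := by gcongr; linarith
        nlinarith
      calc |f y| * (1 + y) ^ 3 ≤ |f y| * (8 * y ^ 3) := by gcongr
        _ = 8 * y * (|f y| * y ^ 2) := by ring
        _ ≤ 8 * y * 7 := by gcongr
        _ = 56 * y := by ring
    · rw [div_le_div_iff₀ hypos (by positivity)]
      have h2 := abs_f_le hypos
      have h4 : (1 + y) ^ 3 ≤ 2 ^ 3 := by gcongr; linarith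
      calc |f y| * (1 + y) ^ 3 ≤ (y / 15) * 2 ^ 3 := by gcongr
        _ ≤ 56 * y := by nlinarith
  refine h1.trans ?_
  rw [Real.rpow_neg (by positivity), div_eq_mul_inv]
  have : (1 + ‖ζ‖) ^ (3 : ℝ) = (1 + ‖ζ‖) ^ 3 := by norm_cast
  rw [this]
  gcongr

theorem measurable_kern : Measurable kern := by
  unfold kern
  have := measurable_f
  fun_prop

theorem integrable_kern : Integrable kern := by
  have h : Integrable (fun ζ : ℂ => 56 * (1 + ‖ζ‖) ^ (-(3 : ℝ))) :=
    (integrable_one_add_norm (by simp [Complex.finrank_real_complex]; norm_num)).const_mul 56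
  exact h.mono' measurable_kern.aestronglyMeasurable (Eventually.of_forall abs_kern_le)

theorem fourier_w_ae : 𝓕 w =ᵐ[volume] fun ζ => ((16 * K * kern ζ : ℝ) : ℂ) := by
  have : ∀ᵐ ζ : ℂ ∂volume, ζ ≠ 0 := by
    simp [ae_iff]
  filter_upwards [this] with ζ hζ
  rw [fourier_w hζ, kern]

theorem kern_zero {s : ℂ} (hs : 1 ≤ ‖s‖) :
    ∫ ζ : ℂ, cexp ((2 * π * ⟪ζ, s⟫ : ℝ) * I) * (kern ζ : ℂ) = 0 := by
  have hint : Integrable (𝓕 w) := by
    refine Integrable.congr ?_ fourier_w_ae.symm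
    exact (integrable_kern.const_mul _).ofReal
  have h1 := congrFun (continuous_w.fourierInv_fourier_eq integrable_w hint) s
  rw [w_eq_zero hs, Real.fourierInv_congr_ae fourier_w_ae, Real.fourierInv_eq'] at h1
  have h2 : ∀ ζ : ℂ, cexp ((2 * π * ⟪ζ, s⟫ : ℝ) * I) • ((16 * K * kern ζ : ℝ) : ℂ) =
      (16 * K : ℂ) * (cexp ((2 * π * ⟪ζ, s⟫ : ℝ) * I) * (kern ζ : ℂ)) := by
    intro ζ
    rw [smul_eq_mul]
    push_cast
    ring
  simp_rw [h2] at h1
  rw [integral_const_mul] at h1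
  have hK : (16 * K : ℂ) ≠ 0 := by
    have := K_pos.ne'
    simp [this]
  exact (mul_eq_zero.mp h1).resolve_left hK

/-- The integrand in polar coordinates. -/
noncomputable def Phi (s : ℂ) (φ y : ℝ) : ℂ :=
  (f y : ℂ) * cexp ((y * ⟪cexp (φ * I), s⟫ : ℝ) * I)

theorem norm_exp_real_mul_I (a : ℝ) : ‖cexp (a * I)‖ = 1 := Complex.norm_exp_ofReal_mul_I a

theorem integrable_Phi (s : ℂ) : Integrable (Function.uncurry (Phi s))
    ((volume.restrict (Ioo (-π) π)).prod (volume.restrict (Ioi (0 : ℝ)))) := by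
  have h1 : Integrable (fun p : ℝ × ℝ => (1 : ℝ) * f p.2)
      ((volume.restrict (Ioo (-π) π)).prod (volume.restrict (Ioi (0 : ℝ)))) := by
    apply Integrable.mul_prod (f := fun _ : ℝ => (1 : ℝ)) (g := f)
    · exact integrable_const _
    · exact integrableOn_f
  refine Integrable.mono' h1.norm ?_ (Eventually.of_forall fun p => ?_)
  · apply Measurable.aestronglyMeasurable
    unfold Function.uncurry Phi
    have := measurable_f
    fun_prop
  · unfold Function.uncurry Phi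
    rw [norm_mul, norm_exp_real_mul_I, Complex.norm_real]
    simp

theorem integrableOn_Phi (s : ℂ) (φ : ℝ) : IntegrableOn (Phi s φ) (Ioi 0) := by
  refine Integrable.mono' integrableOn_f.norm ?_ (Eventually.of_forall fun y => ?_)
  · apply Measurable.aestronglyMeasurable
    unfold Phi
    have := measurable_f
    fun_prop
  · unfold Phi
    rw [norm_mul, norm_exp_real_mul_I, Complex.norm_real]
    simp

theorem Phi_zero {s : ℂ} (hs : 1 ≤ ‖s‖) :
    ∫ φ in Ioo (-π) π, ∫ y in Ioi (0 : ℝ), Phi s φ y = 0 := by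
  have h1 := Complex.integral_comp_polarCoord_symm
    (fun ζ : ℂ => cexp ((2 * π * ⟪ζ, s⟫ : ℝ) * I) * (kern ζ : ℂ))
  rw [kern_zero hs] at h1
  have h2 : ∀ p ∈ polarCoord.target, p.1 • (cexp ((2 * π * ⟪Complex.polarCoord.symm p, s⟫ : ℝ) * I) *
      (kern (Complex.polarCoord.symm p) : ℂ)) =
      (2 * π : ℂ)⁻¹ * Phi s p.2 (2 * π * p.1) := by
    intro p hp
    have hp1 : 0 < p.1 := hp.1
    have hp1' : (p.1 : ℂ) ≠ 0 := by exact_mod_cast hp1.ne'
    unfold kern Phi
    rw [Complex.norm_polarCoord_symm, abs_of_pos hp1, Complex.polarCoord_symm_apply]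
    have h3 : ⟪(p.1 : ℂ) * (Real.cos p.2 + Real.sin p.2 * I), s⟫ =
        p.1 * ⟪cexp (p.2 * I), s⟫ := by
      rw [Complex.exp_mul_I, Complex.inner, Complex.inner]
      simp [Complex.mul_re]
      ring
    rw [h3, Complex.real_smul]
    have hpi : (π : ℂ) ≠ 0 := by exact_mod_cast Real.pi_ne_zero
    push_cast
    rw [show ((2 : ℂ) * π * (p.1 * (⟪cexp (p.2 * I), s⟫ : ℝ)) * I) =
      (2 * π * p.1 * (⟪cexp (p.2 * I), s⟫ : ℝ) * I) by ring]
    field_simp
  rw [setIntegral_congr_fun (by exact polarCoord.open_target.measurableSet) h2] at h1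
  rw [integral_const_mul] at h1
  have hpi : ((2 * π : ℂ)⁻¹) ≠ 0 := by
    have : (π : ℂ) ≠ 0 := by exact_mod_cast Real.pi_ne_zero
    simp [this]
  have h4 := (mul_eq_zero.mp h1).resolve_left hpi
  have htarget : polarCoord.target = Ioi (0 : ℝ) ×ˢ Ioo (-π) π := rfl
  have hvol : (volume : Measure (ℝ × ℝ)) = (volume : Measure ℝ).prod volume := rfl
  rw [htarget, hvol, ← Measure.prod_restrict] at h4
  have hint : Integrable (fun p : ℝ × ℝ => Phi s p.2 (2 * π * p.1))
      ((volume.restrict (Ioi (0 : ℝ))).prod (volume.restrict (Ioo (-π) π))) := by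
    have h5 : IntegrableOn (fun r : ℝ => f (2 * π * r)) (Ioi 0) := by
      rw [integrableOn_Ioi_comp_mul_left_iff f 0 (by positivity)]
      simpa using integrableOn_f
    have h6 : Integrable (fun p : ℝ × ℝ => f (2 * π * p.1) * (1 : ℝ))
      ((volume.restrict (Ioi (0 : ℝ))).prod (volume.restrict (Ioo (-π) π))) := by
      apply Integrable.mul_prod (f := fun r : ℝ => f (2 * π * r)) (g := fun _ : ℝ => (1 : ℝ))
      · exact h5
      · exact integrable_const _
    refine Integrable.mono' h6.norm ?_ (Eventually.of_forall fun p => ?_)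
    · apply Measurable.aestronglyMeasurable
      unfold Phi
      have := measurable_f
      fun_prop
    · unfold Phi
      rw [norm_mul, norm_exp_real_mul_I, Complex.norm_real]
      simp
  rw [integral_prod_symm _ hint] at h4
  have h7 : ∀ φ : ℝ, ∫ r in Ioi (0 : ℝ), Phi s φ (2 * π * r) =
      (2 * π : ℂ)⁻¹ * ∫ y in Ioi (0 : ℝ), Phi s φ y := by
    intro φ
    rw [integral_comp_mul_left_Ioi (fun y => Phi s φ y) 0 (by positivity : (0 : ℝ) < 2 * π)]
    rw [mul_zero, Complex.real_smul]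
    push_cast
    ring
  simp only [h7] at h4
  rw [integral_const_mul] at h4
  exact (mul_eq_zero.mp h4).resolve_left hpi

/-- The analytic core: there is no exponential sum with frequencies outside the unit disc whose
real part obeys the differential inequality on every ray. -/
theorem main_contra {ι : Type*} [Fintype ι] (c s : ι → ℂ) (hs : ∀ i, c i ≠ 0 → 1 ≤ ‖s i‖)
    (h0 : ∑ i, c i = 1)
    (hb : ∀ (e : ℂ) (y : ℝ), ‖e‖ = 1 →
      (∑ i, c i * cexp ((y * ⟪e, s i⟫ : ℝ) * I)).re ^ 2 +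
      4 * (∑ i, c i * ((⟪e, s i⟫ : ℝ) * I) * cexp ((y * ⟪e, s i⟫ : ℝ) * I)).re ^ 2 ≤ 1) :
    False := by
  have hin : ∀ φ : ℝ, 3 / 1000 ≤ ∫ y in Ioi (0 : ℝ),
      f y * (∑ i, c i * cexp ((y * ⟪cexp (φ * I), s i⟫ : ℝ) * I)).re := by
    intro φ
    refine main_ineq (u' := fun y => (∑ i, c i * ((⟪cexp (φ * I), s i⟫ : ℝ) * I) *
      cexp ((y * ⟪cexp (φ * I), s i⟫ : ℝ) * I)).re) ?_ ?_ ?_ ?_
    · intro y
      have h1 : HasDerivAt (fun y : ℝ => ∑ i, c i * cexp ((y * ⟪cexp (φ * I), s i⟫ : ℝ) * I))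
          (∑ i, c i * ((⟪cexp (φ * I), s i⟫ : ℝ) * I) *
          cexp ((y * ⟪cexp (φ * I), s i⟫ : ℝ) * I)) y := by
        refine HasDerivAt.fun_sum fun i _ => ?_
        have h2 : HasDerivAt (fun y : ℝ => y * ⟪cexp (φ * I), s i⟫) ⟪cexp (φ * I), s i⟫ y := by
          simpa using (hasDerivAt_id y).mul_const ⟪cexp (φ * I), s i⟫
        have h3 := ((h2.ofReal_comp.mul_const I).cexp).const_mul (c i)
        refine h3.congr_deriv ?_
        ring
      exact Complex.reCLM.hasFDerivAt.comp_hasDerivAt y h1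
    · fun_prop
    · intro y
      exact hb _ y (norm_exp_real_mul_I φ)
    · simp [h0]
  have hPhi : ∀ φ : ℝ, ∫ y in Ioi (0 : ℝ),
      f y * (∑ i, c i * cexp ((y * ⟪cexp (φ * I), s i⟫ : ℝ) * I)).re =
      (∑ i, c i * ∫ y in Ioi (0 : ℝ), Phi (s i) φ y).re := by
    intro φ
    have h1 : ∀ y : ℝ, f y * (∑ i, c i * cexp ((y * ⟪cexp (φ * I), s i⟫ : ℝ) * I)).re =
        (∑ i, c i * Phi (s i) φ y).re := by
      intro y
      rw [← Complex.re_ofReal_mul, Finset.mul_sum]
      congr 1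
      refine Finset.sum_congr rfl fun i _ => ?_
      unfold Phi
      ring
    simp_rw [h1]
    have hi : ∀ i ∈ (Finset.univ : Finset ι), Integrable (fun y => c i * Phi (s i) φ y)
        (volume.restrict (Ioi (0 : ℝ))) := fun i _ => (integrableOn_Phi (s i) φ).const_mul _
    have h2 := integral_re (integrable_finsetSum _ hi)
    have h3 : ∫ y in Ioi (0 : ℝ), (∑ i, c i * Phi (s i) φ y).re =
        (∫ y in Ioi (0 : ℝ), ∑ i, c i * Phi (s i) φ y).re := h2
    rw [h3, integral_finsetSum _ hi]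
    congr 1
    refine Finset.sum_congr rfl fun i _ => ?_
    rw [integral_const_mul]
  have hJ : ∀ i, Integrable (fun φ : ℝ => ∫ y in Ioi (0 : ℝ), Phi (s i) φ y)
      (volume.restrict (Ioo (-π) π)) := fun i => (integrable_Phi (s i)).integral_prod_left
  have hi : ∀ i ∈ (Finset.univ : Finset ι), Integrable
      (fun φ : ℝ => c i * ∫ y in Ioi (0 : ℝ), Phi (s i) φ y)
        (volume.restrict (Ioo (-π) π)) := fun i _ => (hJ i).const_mul _
  have htot : ∫ φ in Ioo (-π) π, (∑ i, c i * ∫ y in Ioi (0 : ℝ), Phi (s i) φ y).re = 0 := by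
    have h2 := integral_re (integrable_finsetSum _ hi)
    have h3 : ∫ φ in Ioo (-π) π, (∑ i, c i * ∫ y in Ioi (0 : ℝ), Phi (s i) φ y).re =
        (∫ φ in Ioo (-π) π, ∑ i, c i * ∫ y in Ioi (0 : ℝ), Phi (s i) φ y).re := h2
    rw [h3, integral_finsetSum _ hi]
    have h4 : ∑ i, ∫ φ in Ioo (-π) π, c i * ∫ y in Ioi (0 : ℝ), Phi (s i) φ y = 0 := by
      refine Finset.sum_eq_zero fun i _ => ?_
      rw [integral_const_mul]
      by_cases hc : c i = 0
      · rw [hc, zero_mul]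
      · rw [Phi_zero (hs i hc), mul_zero]
    rw [h4]
    rfl
  have hre : Integrable (fun φ : ℝ => (∑ i, c i * ∫ y in Ioi (0 : ℝ), Phi (s i) φ y).re)
      (volume.restrict (Ioo (-π) π)) := (integrable_finsetSum _ hi).re
  have hlow : ∫ φ in Ioo (-π) π, (3 / 1000 : ℝ) ≤
      ∫ φ in Ioo (-π) π, (∑ i, c i * ∫ y in Ioi (0 : ℝ), Phi (s i) φ y).re := by
    apply integral_mono_of_nonneg (Eventually.of_forall fun _ => by positivity) hre
    refine Eventually.of_forall fun φ => ?_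
    simp only
    rw [← hPhi]
    exact hin φ
  rw [htot, setIntegral_const] at hlow
  have hv : (volume : Measure ℝ).real (Ioo (-π) π) = 2 * π := by
    rw [Measure.real, Real.volume_Ioo, ENNReal.toReal_ofReal (by linarith [Real.pi_pos])]
    ring
  rw [hv, smul_eq_mul] at hlow
  nlinarith [Real.pi_pos]

end SpecVar
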