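import Mathlib
import Pool.Agent.Lib.MP_29a676_an.Kernel

/-!
Linear algebra part: orthonormal eigenbases of normal matrices, Hall's marriage theorem, and the
two unitary groups `exp (i Re (conj z A))`, `exp (i Re (conj z B))` applied to a common vector.
-/

namespace SpecVar

open Module Module.End

variable {E : Type*} [NormedAddCommGroup E] [InnerProductSpace ℂ E] [FiniteDimensional ℂ E]


open ContinuousLinearMap in
theorem adjoint_apply_of_eigen {T : E →L[ℂ] E} (hT : IsStarNormal T) {μ : ℂ} {v : E}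
    (hv : T v = μ • v) : adjoint T v = (starRingEnd ℂ μ) • v := by
  have h1 : IsStarNormal (T - μ • (1 : E →L[ℂ] E)) := by
    have hc : star T * T = T * star T := hT.star_comm_self
    refine ⟨?_⟩
    rw [Commute, SemiconjBy, star_sub, star_smul, star_one]
    simp only [sub_mul, mul_sub, smul_mul_assoc, mul_smul_comm, one_mul, mul_one, hc]
    simp only [smul_sub]
    rw [smul_comm]
    abel
  have h2 := (ContinuousLinearMap.IsStarNormal.adjoint_apply_eq_zero_iff h1 v).mpr (by
    simp [hv])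
  have h3 : adjoint (T - μ • (1 : E →L[ℂ] E)) = adjoint T - (starRingEnd ℂ μ) • 1 := by
    rw [← star_eq_adjoint, star_sub, star_smul, star_one, star_eq_adjoint]
    rfl
  rw [h3] at h2
  have h4 : adjoint T v - (starRingEnd ℂ μ) • v = 0 := by simpa using h2
  exact sub_eq_zero.mp h4

open ContinuousLinearMap in
theorem orthogonal_eigen {T : E →L[ℂ] E} (hT : IsStarNormal T) :
    OrthogonalFamily ℂ (fun μ : ℂ => eigenspace (T : E →ₗ[ℂ] E) μ)
      fun μ => (eigenspace (T : E →ₗ[ℂ] E) μ).subtypeₗᵢ := by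
  apply OrthogonalFamily.of_pairwise
  intro μ ν hμν v hv w hw
  rw [mem_eigenspace_iff] at hv hw
  have hv' : T v = μ • v := hv
  have hw' : T w = ν • w := hw
  have h1 : (inner ℂ w (T v)) = μ * (inner ℂ w v) := by rw [hv', inner_smul_right]
  have h2 : (inner ℂ w (T v)) = ν * (inner ℂ w v) := by
    rw [← adjoint_inner_left, adjoint_apply_of_eigen hT hw', inner_smul_left]
    simp
  have h3 : (μ - ν) * (inner ℂ w v) = 0 := by rw [sub_mul, ← h1, ← h2, sub_self]
  exact (mul_eq_zero.mp h3).resolve_left (sub_ne_zero.mpr hμν)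

open ContinuousLinearMap in
theorem iSup_eigen_orth {T : E →L[ℂ] E} (hT : IsStarNormal T) :
    (⨆ μ : ℂ, eigenspace (T : E →ₗ[ℂ] E) μ)ᗮ = ⊥ := by
  set W := (⨆ μ : ℂ, eigenspace (T : E →ₗ[ℂ] E) μ) with hW
  have hmaps : ∀ v ∈ Wᗮ, (T : E →ₗ[ℂ] E) v ∈ Wᗮ := by
    intro v hv
    rw [Submodule.mem_orthogonal] at hv ⊢
    intro u hu
    rw [hW] at hu
    refine Submodule.iSup_induction _ (motive := fun u => (inner ℂ u ((T : E →ₗ[ℂ] E) v)) = 0) hu ?_ ?_ ?_
    · intro μ x hx
      have hx' : T x = μ • x := mem_eigenspace_iff.mp hx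
      change (inner ℂ x (T v)) = 0
      rw [← adjoint_inner_left, adjoint_apply_of_eigen hT hx', inner_smul_left,
        hv x (by rw [hW]; exact Submodule.mem_iSup_of_mem μ hx), mul_zero]
    · simp
    · intro x y hx hy
      rw [inner_add_left, hx, hy, add_zero]
  by_contra hne
  have : Nontrivial Wᗮ := Submodule.nontrivial_iff_ne_bot.mpr hne
  obtain ⟨μ, hμ⟩ := Module.End.exists_eigenvalue ((T : E →ₗ[ℂ] E).restrict hmaps)
  obtain ⟨v, hv⟩ := hμ.exists_hasEigenvector
  have h1 : (T : E →ₗ[ℂ] E) v = μ • (v : E) := by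
    have := hv.apply_eq_smul
    exact congrArg Subtype.val this
  have h2 : (v : E) ∈ W :=
    (Submodule.mem_iSup_of_mem (p := fun μ : ℂ => eigenspace (T : E →ₗ[ℂ] E) μ) μ
      (mem_eigenspace_iff.mpr h1))
  have h3 : (inner ℂ ((v : E)) ((v : E))) = 0 := (Submodule.mem_orthogonal W v).mp v.2 v h2
  have h4 : (v : E) = 0 := inner_self_eq_zero.mp h3
  exact hv.2 (Subtype.ext h4)

theorem exists_eigenbasis {T : E →L[ℂ] E} (hT : IsStarNormal T) {n : ℕ}
    (hn : finrank ℂ E = n) :
    ∃ (b : OrthonormalBasis (Fin n) ℂ E) (l : Fin n → ℂ), ∀ i, T (b i) = l i • b i := by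
  classical
  have h1 : OrthogonalFamily ℂ (fun μ : Eigenvalues (T : E →ₗ[ℂ] E) =>
      eigenspace (T : E →ₗ[ℂ] E) μ)
      fun μ => (eigenspace (T : E →ₗ[ℂ] E) μ).subtypeₗᵢ :=
    (orthogonal_eigen hT).comp Subtype.coe_injective
  have h2 : DirectSum.IsInternal (fun μ : Eigenvalues (T : E →ₗ[ℂ] E) =>
      eigenspace (T : E →ₗ[ℂ] E) μ) := by
    rw [h1.isInternal_iff]
    have h3 : (⨆ μ : Eigenvalues (T : E →ₗ[ℂ] E), eigenspace (T : E →ₗ[ℂ] E) μ) =
        ⨆ μ : ℂ, eigenspace (T : E →ₗ[ℂ] E) μ := iSup_ne_bot_subtype _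
    rw [h3]
    exact iSup_eigen_orth hT
  refine ⟨h2.subordinateOrthonormalBasis hn h1, fun i =>
    ((h2.subordinateOrthonormalBasisIndex hn i h1 : Eigenvalues (T : E →ₗ[ℂ] E)) : ℂ),
    fun i => ?_⟩
  have h3 := h2.subordinateOrthonormalBasis_subordinate hn i h1
  exact mem_eigenspace_iff.mp h3

theorem exists_perm_of_map_eq {n : ℕ} {α l : Fin n → ℂ}
    (h : Multiset.map α Finset.univ.val = Multiset.map l Finset.univ.val) :
    ∃ σ : Equiv.Perm (Fin n), ∀ i, l (σ i) = α i := by
  classical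
  have hcard : ∀ c : ℂ, Fintype.card {i // α i = c} = Fintype.card {i // l i = c} := by
    intro c
    have h1 := congrArg (Multiset.count c) h
    rw [Multiset.count_map, Multiset.count_map] at h1
    rw [Fintype.card_subtype, Fintype.card_subtype]
    have e1 : ∀ g : Fin n → ℂ, Finset.card (Finset.filter (fun i => g i = c) Finset.univ) =
        Multiset.card (Multiset.filter (fun a => c = g a) (Finset.univ : Finset (Fin n)).val) := by
      intro g
      rw [Finset.card_def, Finset.filter_val]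
      congr 1
      apply Multiset.filter_congr
      intro x _
      exact eq_comm
    rw [e1, e1]
    exact h1
  refine ⟨Equiv.ofFiberEquiv fun c => Fintype.equivOfCardEq (hcard c), fun i => ?_⟩
  exact Equiv.ofFiberEquiv_map _ i

theorem isStarNormal_toEuclideanCLM {n : ℕ} {A : Matrix (Fin n) (Fin n) ℂ}
    (hA : IsStarNormal A) :
    IsStarNormal (Matrix.toEuclideanCLM (n := Fin n) (𝕜 := ℂ) A) := by
  refine ⟨?_⟩
  rw [← map_star]
  exact (Commute.map hA.star_comm_self (Matrix.toEuclideanCLM (n := Fin n) (𝕜 := ℂ)))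

open Polynomial in
theorem exists_eigenbasis_matrix {n : ℕ} {A : Matrix (Fin n) (Fin n) ℂ} (hA : IsStarNormal A)
    {α : Fin n → ℂ} (hα : A.charpoly = ∏ i, (X - C (α i))) :
    ∃ b : OrthonormalBasis (Fin n) ℂ (EuclideanSpace ℂ (Fin n)),
      ∀ i, Matrix.toEuclideanCLM (𝕜 := ℂ) A (b i) = α i • b i := by
  have hT := isStarNormal_toEuclideanCLM hA
  obtain ⟨b, l, hb⟩ := exists_eigenbasis hT (n := n) (by simp)
  have h1 : A.charpoly = ∏ i, (X - C (l i)) := by
    have e1 : A.charpoly = (Matrix.toLin (EuclideanSpace.basisFun (Fin n) ℂ).toBasis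
        (EuclideanSpace.basisFun (Fin n) ℂ).toBasis A).charpoly := by
      rw [Matrix.charpoly_toLin]
    rw [e1, ← LinearMap.charpoly_toMatrix _ b.toBasis, ← Matrix.charpoly_diagonal]
    congr 1
    ext i j
    rw [LinearMap.toMatrix_apply]
    have e2 : Matrix.toLin (EuclideanSpace.basisFun (Fin n) ℂ).toBasis
        (EuclideanSpace.basisFun (Fin n) ℂ).toBasis A (b.toBasis j) = l j • b.toBasis j := by
      have := hb j
      simpa using! this
    rw [e2]
    simp [Matrix.diagonal_apply, eq_comm]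
    split_ifs with hij
    · rw [hij]
    · rfl
  have h2 : Multiset.map α Finset.univ.val = Multiset.map l Finset.univ.val := by
    have h3 : (∏ i, (X - C (α i))).roots = (∏ i, (X - C (l i))).roots := by
      rw [← hα, h1]
    have h4 : ∀ g : Fin n → ℂ, (∏ i, (X - C (g i))).roots = Multiset.map g Finset.univ.val := by
      intro g
      have := Polynomial.roots_multiset_prod_X_sub_C (Multiset.map g Finset.univ.val)
      rw [Multiset.map_map] at this
      exact this
    rwa [h4, h4] at h3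
  obtain ⟨σ, hσ⟩ := exists_perm_of_map_eq h2
  refine ⟨b.reindex σ.symm, fun i => ?_⟩
  rw [OrthonormalBasis.reindex_apply, Equiv.symm_symm, hb, hσ]


omit [FiniteDimensional ℂ E] in
theorem hilbert_ineq {χ φ v : E} (hχ : ‖χ‖ = 1) (hφ : ‖φ‖ = 1) (hv : ‖v‖ ≤ 1 / 2)
    (h0 : ((inner ℂ φ v)).re = 0) : ((inner ℂ χ φ)).re ^ 2 + 4 * ((inner ℂ χ v)).re ^ 2 ≤ 1 := by
  set p := ((inner ℂ χ φ)).re with hp
  set q := ((inner ℂ χ v)).re with hq
  have h1 : ((inner ℂ χ ((p : ℂ) • φ + ((4 * q : ℝ) : ℂ) • v))).re = p * p + 4 * q * q := by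
    rw [inner_add_right, inner_smul_right, inner_smul_right, Complex.add_re,
      Complex.re_ofReal_mul, Complex.re_ofReal_mul, ← hp, ← hq]
  have h2 : ‖(p : ℂ) • φ + ((4 * q : ℝ) : ℂ) • v‖ ^ 2 = p ^ 2 + 16 * q ^ 2 * ‖v‖ ^ 2 := by
    have := @norm_add_sq ℂ E _ _ _ ((p : ℂ) • φ) (((4 * q : ℝ) : ℂ) • v)
    rw [this, inner_smul_left, inner_smul_right, norm_smul, norm_smul, hφ]
    have e1 : RCLike.re ((starRingEnd ℂ) (p : ℂ) * (((4 * q : ℝ) : ℂ) * (inner ℂ φ v))) = 0 := by
      change ((starRingEnd ℂ) (p : ℂ) * (((4 * q : ℝ) : ℂ) * (inner ℂ φ v))).re = 0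
      rw [Complex.conj_ofReal, Complex.re_ofReal_mul, Complex.re_ofReal_mul, h0]
      ring
    rw [e1, Complex.norm_real, Complex.norm_real, mul_one, mul_pow, Real.norm_eq_abs,
      Real.norm_eq_abs, sq_abs, sq_abs]
    ring
  have h3 := @norm_sub_sq ℂ E _ _ _ χ ((p : ℂ) • φ + ((4 * q : ℝ) : ℂ) • v)
  have h4 : RCLike.re (inner ℂ χ ((p : ℂ) • φ + ((4 * q : ℝ) : ℂ) • v)) = p * p + 4 * q * q := h1
  rw [h4, h2, hχ] at h3
  have h5 : ‖v‖ ^ 2 ≤ 1 / 4 := by
    have : ‖v‖ ^ 2 ≤ (1 / 2) ^ 2 := by gcongr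
    linarith
  nlinarith [sq_nonneg (‖χ - ((p : ℂ) • φ + ((4 * q : ℝ) : ℂ) • v)‖), sq_nonneg q]

theorem real_inner_eq (e s : ℂ) : ((inner ℝ e s : ℝ) : ℂ) =
    (starRingEnd ℂ e * s + e * starRingEnd ℂ s) / 2 := by
  rw [Complex.inner, Complex.re_eq_add_conj]
  simp [mul_comm]


open ContinuousLinearMap in
/-- No vector can have all its mass on eigenvectors whose eigenvalues are too far apart. -/
theorem no_common {ι κ : Type*} [Fintype ι] [Fintype κ] (a : OrthonormalBasis ι ℂ E)
    (b : OrthonormalBasis κ ℂ E) (A B : E →L[ℂ] E) (α : ι → ℂ) (β : κ → ℂ)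
    (hA : ∀ i, A (a i) = α i • a i) (hB : ∀ k, B (b k) = β k • b k)
    (hA' : ∀ i, adjoint A (a i) = (starRingEnd ℂ (α i)) • a i)
    (hB' : ∀ k, adjoint B (b k) = (starRingEnd ℂ (β k)) • b k) (x : E) (hx : ‖x‖ = 1)
    (δ : ℝ) (hδ : 0 < δ) (hAB : 2 * ‖A - B‖ ≤ δ)
    (hsep : ∀ i k, (inner ℂ (a i) x) ≠ 0 → (inner ℂ (b k) x) ≠ 0 → δ ≤ ‖α i - β k‖) : False := by
  classical
  have hδ' : (δ : ℂ) ≠ 0 := by exact_mod_cast hδ.ne'
  refine main_contra (ι := κ × ι) (fun p => (inner ℂ x (b p.1)) * (inner ℂ (a p.2) x) * (inner ℂ (b p.1) (a p.2)))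
    (fun p => (α p.2 - β p.1) / δ) ?_ ?_ ?_
  · intro p hp
    have h1 : (inner ℂ (a p.2) x) ≠ 0 := by
      intro h
      apply hp
      simp [h]
    have h2 : (inner ℂ (b p.1) x) ≠ 0 := by
      intro h
      apply hp
      rw [← inner_conj_symm, h]
      simp
    have h3 := hsep _ _ h1 h2
    rw [norm_div, Complex.norm_real, Real.norm_eq_abs, abs_of_pos hδ, le_div_iff₀ hδ, one_mul]
    exact h3
  · rw [Fintype.sum_prod_type]
    have h1 : ∀ k, ∑ i, (inner ℂ x (b k)) * (inner ℂ (a i) x) * (inner ℂ (b k) (a i)) = (inner ℂ x (b k)) * (inner ℂ (b k) x) := by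
      intro k
      rw [← a.sum_inner_mul_inner (b k) x, Finset.mul_sum]
      refine Finset.sum_congr rfl fun i _ => ?_
      ring
    simp only [h1]
    rw [b.sum_inner_mul_inner, inner_self_eq_norm_sq_to_K, hx]
    simp
  · intro e y he
    set ca : ι → ℂ := fun i => Complex.exp ((y * inner ℝ e (α i / δ) : ℝ) * Complex.I) * (inner ℂ (a i) x)
      with hca
    set cb : κ → ℂ := fun k => Complex.exp ((y * inner ℝ e (β k / δ) : ℝ) * Complex.I) * (inner ℂ (b k) x)
      with hcb
    set φ : E := ∑ i, ca i • a i with hφ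
    set χ : E := ∑ k, cb k • b k with hχ
    set D : E →L[ℂ] E := ((1 / (2 * δ) : ℝ) : ℂ) •
      ((starRingEnd ℂ e) • (A - B) + e • adjoint (A - B)) with hD
    have hcoef : ∀ k i, starRingEnd ℂ (cb k) * ca i * (inner ℂ (b k) (a i)) =
        (inner ℂ x (b k)) * (inner ℂ (a i) x) * (inner ℂ (b k) (a i)) *
        Complex.exp ((y * inner ℝ e ((α i - β k) / δ) : ℝ) * Complex.I) := by
      intro k i
      rw [hca, hcb]
      simp only [map_mul]
      rw [← Complex.exp_conj, map_mul, Complex.conj_ofReal, Complex.conj_I, inner_conj_symm,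
        sub_div, inner_sub_right, mul_sub, Complex.ofReal_sub, sub_mul, Complex.exp_sub, mul_neg,
        Complex.exp_neg]
      field_simp
    have hNorm : ∀ (u : ℝ) (z : ℂ), ‖Complex.exp (u * Complex.I) * z‖ = ‖z‖ := by
      intro u z
      rw [norm_mul, Complex.norm_exp_ofReal_mul_I, one_mul]
    have hφn : ‖φ‖ = 1 := by
      have h1 : φ = a.repr.symm (WithLp.toLp 2 ca) := by
        rw [← a.sum_repr_symm]
      rw [h1, LinearIsometryEquiv.norm_map, EuclideanSpace.norm_eq]
      simp only [hca, hNorm]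
      rw [a.sum_sq_norm_inner_right, hx]
      simp
    have hχn : ‖χ‖ = 1 := by
      have h1 : χ = b.repr.symm (WithLp.toLp 2 cb) := by
        rw [← b.sum_repr_symm]
      rw [h1, LinearIsometryEquiv.norm_map, EuclideanSpace.norm_eq]
      simp only [hcb, hNorm]
      rw [b.sum_sq_norm_inner_right, hx]
      simp
    have hDb : ∀ k i, (inner ℂ (b k) (D (a i))) = (inner ℝ e ((α i - β k) / δ) : ℝ) * (inner ℂ (b k) (a i)) := by
      intro k i
      have g1 : (inner ℂ (b k) (B (a i))) = β k * (inner ℂ (b k) (a i)) := by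
        rw [← adjoint_inner_left, hB', inner_smul_left, Complex.conj_conj]
      have g2 : (inner ℂ (b k) (adjoint B (a i))) = starRingEnd ℂ (β k) * (inner ℂ (b k) (a i)) := by
        rw [adjoint_inner_right, hB, inner_smul_left]
      rw [hD, smul_apply, add_apply, smul_apply, smul_apply, map_sub, sub_apply, sub_apply,
        hA, hA', inner_smul_right, inner_add_right, inner_smul_right, inner_smul_right,
        inner_sub_right, inner_sub_right, g1, g2, inner_smul_right, inner_smul_right,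
        real_inner_eq]
      simp only [map_div₀, map_sub, Complex.conj_ofReal]
      push_cast
      field_simp
    have hsum1 : ∑ p : κ × ι, (inner ℂ x (b p.1)) * (inner ℂ (a p.2) x) * (inner ℂ (b p.1) (a p.2)) *
        Complex.exp ((y * inner ℝ e ((α p.2 - β p.1) / δ) : ℝ) * Complex.I) = (inner ℂ χ φ) := by
      rw [Fintype.sum_prod_type, hχ, hφ, sum_inner]
      refine Finset.sum_congr rfl fun k _ => ?_
      rw [inner_smul_left, inner_sum, Finset.mul_sum]
      refine Finset.sum_congr rfl fun i _ => ?_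
      rw [inner_smul_right, ← hcoef]
      ring
    have hsum2 : ∑ p : κ × ι, (inner ℂ x (b p.1)) * (inner ℂ (a p.2) x) * (inner ℂ (b p.1) (a p.2)) *
        ((inner ℝ e ((α p.2 - β p.1) / δ) : ℝ) * Complex.I) *
        Complex.exp ((y * inner ℝ e ((α p.2 - β p.1) / δ) : ℝ) * Complex.I) =
        (inner ℂ χ (Complex.I • D φ)) := by
      rw [Fintype.sum_prod_type, inner_smul_right, hχ, hφ, sum_inner, Finset.mul_sum, map_sum]
      refine Finset.sum_congr rfl fun k _ => ?_
      rw [inner_smul_left, inner_sum, Finset.mul_sum, Finset.mul_sum]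
      refine Finset.sum_congr rfl fun i _ => ?_
      rw [map_smul, inner_smul_right, hDb]
      have := hcoef k i
      calc (inner ℂ x (b k)) * (inner ℂ (a i) x) * (inner ℂ (b k) (a i)) *
          ((inner ℝ e ((α i - β k) / δ) : ℝ) * Complex.I) *
          Complex.exp ((y * inner ℝ e ((α i - β k) / δ) : ℝ) * Complex.I) =
          ((inner ℝ e ((α i - β k) / δ) : ℝ) * Complex.I) * ((inner ℂ x (b k)) * (inner ℂ (a i) x) * (inner ℂ (b k) (a i)) *
          Complex.exp ((y * inner ℝ e ((α i - β k) / δ) : ℝ) * Complex.I)) := by ring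
        _ = _ := by rw [← this]; ring
    rw [hsum1, hsum2]
    apply hilbert_ineq hχn hφn
    · rw [norm_smul, Complex.norm_I, one_mul]
      have hDn : ‖D φ‖ ≤ 1 / (2 * δ) * (‖A - B‖ + ‖A - B‖) := by
        rw [hD, smul_apply, norm_smul, Complex.norm_real, Real.norm_eq_abs,
          abs_of_pos (by positivity)]
        gcongr
        rw [add_apply, smul_apply, smul_apply]
        refine (norm_add_le _ _).trans ?_
        rw [norm_smul, norm_smul, RCLike.norm_conj, he, one_mul, one_mul]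
        gcongr
        · exact ((A - B).le_opNorm φ).trans (by rw [hφn, mul_one])
        · refine ((adjoint (A - B)).le_opNorm φ).trans (by
            rw [hφn, mul_one, LinearIsometryEquiv.norm_map])
      refine hDn.trans ?_
      rw [div_mul_eq_mul_div, one_mul, div_le_div_iff₀ (by positivity) (by positivity)]
      nlinarith
    · rw [inner_smul_right, hD, smul_apply, inner_smul_right, add_apply, smul_apply, smul_apply,
        inner_add_right, inner_smul_right, inner_smul_right, adjoint_inner_right]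
      have h1 : (inner ℂ ((A - B) φ) φ) = starRingEnd ℂ (inner ℂ φ ((A - B) φ)) := (inner_conj_symm _ _).symm
      rw [h1]
      have h2 : (starRingEnd ℂ e * (inner ℂ φ ((A - B) φ)) + e * starRingEnd ℂ (inner ℂ φ ((A - B) φ))).im = 0 := by
        simp only [Complex.add_im, Complex.mul_im, Complex.conj_re, Complex.conj_im]
        ring
      rw [Complex.I_mul_re, Complex.im_ofReal_mul, h2]
      simp

theorem exists_common {n : ℕ} (a b : OrthonormalBasis (Fin n) ℂ E) (S T : Finset (Fin n))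
    (h : n < S.card + T.card) :
    ∃ x : E, ‖x‖ = 1 ∧ (∀ i, i ∉ S → (inner ℂ (a i) x) = 0) ∧ (∀ k, k ∉ T → (inner ℂ (b k) x) = 0) := by
  classical
  set L : E →ₗ[ℂ] (({i // i ∉ S} ⊕ {k // k ∉ T}) → ℂ) := LinearMap.pi
    (Sum.elim (fun i => (innerₛₗ ℂ (a i.1) : E →ₗ[ℂ] ℂ)) (fun k => (innerₛₗ ℂ (b k.1) : E →ₗ[ℂ] ℂ)))
    with hL
  have hker : LinearMap.ker L ≠ ⊥ := by
    apply LinearMap.ker_ne_bot_of_finrank_lt
    rw [Module.finrank_pi, Fintype.card_sum, finrank_eq_card_basis a.toBasis, Fintype.card_fin]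
    have h1 : Fintype.card {i // i ∉ S} = n - S.card := by
      simp [Fintype.card_subtype_compl]
    have h2 : Fintype.card {i // i ∉ T} = n - T.card := by
      simp [Fintype.card_subtype_compl]
    have h3 : S.card ≤ n := by simpa using Finset.card_le_univ S
    have h4 : T.card ≤ n := by simpa using Finset.card_le_univ T
    rw [h1, h2]
    omega
  obtain ⟨x, hx, hx0⟩ := Submodule.exists_mem_ne_zero_of_ne_bot hker
  have hxn : 0 < ‖x‖ := norm_pos_iff.mpr hx0
  have hLx : L x = 0 := hx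
  refine ⟨((‖x‖⁻¹ : ℝ) : ℂ) • x, ?_, ?_, ?_⟩
  · rw [norm_smul, Complex.norm_real, Real.norm_eq_abs, abs_of_pos (inv_pos.mpr hxn),
      inv_mul_cancel₀ hxn.ne']
  · intro i hi
    have := congrFun hLx (Sum.inl ⟨i, hi⟩)
    have h2 : (inner ℂ (a i) x) = 0 := this
    rw [inner_smul_right, h2, mul_zero]
  · intro k hk
    have := congrFun hLx (Sum.inr ⟨k, hk⟩)
    have h2 : (inner ℂ (b k) x) = 0 := this
    rw [inner_smul_right, h2, mul_zero]

theorem exists_perm_of_bases {n : ℕ} (a b : OrthonormalBasis (Fin n) ℂ E)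
    (A B : E →L[ℂ] E) (α β : Fin n → ℂ)
    (hA : ∀ i, A (a i) = α i • a i) (hB : ∀ k, B (b k) = β k • b k)
    (hA' : ∀ i, ContinuousLinearMap.adjoint A (a i) = (starRingEnd ℂ (α i)) • a i)
    (hB' : ∀ k, ContinuousLinearMap.adjoint B (b k) = (starRingEnd ℂ (β k)) • b k) :
    ∃ σ : Equiv.Perm (Fin n), ∀ k, ‖α k - β (σ k)‖ ≤ 2 * ‖A - B‖ := by
  classical
  by_contra hcon
  have hall := (Fintype.all_card_le_filter_rel_iff_exists_injective
    (fun i k : Fin n => ‖α i - β k‖ ≤ 2 * ‖A - B‖)).not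
  have h1 : ¬ ∃ g : Fin n → Fin n, Function.Injective g ∧ ∀ i, ‖α i - β (g i)‖ ≤ 2 * ‖A - B‖ := by
    rintro ⟨g, hg, hg2⟩
    exact hcon ⟨Equiv.ofBijective g (Finite.injective_iff_bijective.mp hg), hg2⟩
  have h2 := hall.mpr h1
  push Not at h2
  obtain ⟨S, hS⟩ := h2
  set R : Finset (Fin n) := Finset.filter (fun k => ∃ i ∈ S, ‖α i - β k‖ ≤ 2 * ‖A - B‖)
    Finset.univ with hR
  have hS' : R.card < S.card := by
    convert! hS
  have hcard : n < S.card + Rᶜ.card := by
    have h3 : R.card + Rᶜ.card = n := by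
      rw [Finset.card_add_card_compl, Fintype.card_fin]
    omega
  obtain ⟨x, hx, hxa, hxb⟩ := exists_common a b S Rᶜ hcard
  have hSne : S.Nonempty := by
    rw [← Finset.card_pos]
    have : Rᶜ.card ≤ n := by simpa using Finset.card_le_univ Rᶜ
    omega
  have hTne : Rᶜ.Nonempty := by
    rw [← Finset.card_pos]
    have : S.card ≤ n := by simpa using Finset.card_le_univ S
    omega
  obtain ⟨p, hp, hmin⟩ := Finset.exists_min_image (S ×ˢ Rᶜ) (fun p => ‖α p.1 - β p.2‖)
    (hSne.product hTne)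
  rw [Finset.mem_product] at hp
  have hpos : 2 * ‖A - B‖ < ‖α p.1 - β p.2‖ := by
    by_contra h
    push Not at h
    have := hp.2
    rw [Finset.mem_compl, hR, Finset.mem_filter] at this
    exact this ⟨Finset.mem_univ _, p.1, hp.1, h⟩
  refine no_common a b A B α β hA hB hA' hB' x hx ‖α p.1 - β p.2‖
    (lt_of_le_of_lt (by positivity) hpos) hpos.le ?_
  intro i k hi hk
  have hiS : i ∈ S := by
    by_contra h
    exact hi (hxa i h)
  have hkT : k ∈ Rᶜ := by
    by_contra h
    exact hk (hxb k h)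
  exact hmin (i, k) (Finset.mem_product.mpr ⟨hiS, hkT⟩)

end SpecVar
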